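import Pool.Agent.Helper28.T5.Defs

/-!
# Levels `5 p^n`, `W_5 = +1`: Hecke operators and the dimension chain

The statements of `Helper93/TLH/StB.lean` (project TH, `q = 2`) and `Helper93/TLH/StB3.lean` with `5` in the place of `2` and the definitions of `Helper28/T5/Defs.lean`; the words are those with the primes different from `5` and `p`. Proofs as there (for `q = 3`: `Pool/Agent/*/TKC/M_*.lean`).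
-/

set_option autoImplicit false

namespace Pool.Agent.Helper83.T5C

open Pool.Agent.Helper14.CV (Homog EqC act Tl StFar StFex)
open Pool.Agent.Helper28.WK (Tw evw)
open Pool.Agent.Helper28.TH (OkH)
open Pool.Agent.Helper28.T5
open Pool.Agent.Helper93.TLE (DDE)

/-- HK. -/
def SHHk : Prop := ∀ (p : ℕ), p.Prime → p ≠ 5 → ∀ (R : Type) (_ : AddCommGroup R) (n l : ℕ)
  (G : ℤ → ℤ → R), l.Prime → l ≠ p → l ≠ 5 → SymH p 0 n G →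
  ∀ δ : Fin (l + 1) → Matrix (Fin 2) (Fin 2) ℤ,
  (∀ P, (δ P).det = l) → (∀ P, 5 * (p : ℤ) ^ n ∣ δ P 1 0) →
  (∀ P P', P ≠ P' → ¬ ∀ i j, (l : ℤ) ∣ (δ P * (δ P').adjugate) i j) →
  EqC (fun x y => ∑ P, G (δ P 0 0 * x + δ P 0 1 * y) (δ P 1 0 * x + δ P 1 1 * y)) (Tl l 1 G)

/-- HKS (from HK). -/
def SHHkS : Prop := ∀ (p : ℕ), p.Prime → p ≠ 5 → ∀ (R : Type) (_ : AddCommGroup R) (n : ℕ)
  (G : ℤ → ℤ → R), SymH p 0 n G → ∀ l : ℕ, l.Prime → l ≠ p → l ≠ 5 → SymH p 0 n (Tl l 1 G)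

/-- HKW (from HK). -/
def SHHkW : Prop := ∀ (p : ℕ), p.Prime → p ≠ 5 → ∀ (R : Type) (_ : AddCommGroup R) (n : ℕ)
  (G : ℤ → ℤ → R), SymH p 0 n G → ∀ l : ℕ, l.Prime → l ≠ p → l ≠ 5 →
    EqC (Tl l 1 (act 0 (-1) (5 * (p : ℤ) ^ n) 0 G)) (act 0 (-1) (5 * (p : ℤ) ^ n) 0 (Tl l 1 G)) ∧
    EqC (Tl l 1 (act (-1) 0 0 1 G)) (act (-1) 0 0 1 (Tl l 1 G))

/-- EV (from HKS, HKW). -/
def SHEv : Prop := ∀ (p : ℕ), p.Prime → p ≠ 5 → ∀ (R : Type) (_ : AddCommGroup R) (n : ℕ)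
  (G : ℤ → ℤ → R), SymH p 0 n G → ∀ ls : List ℕ, OkH 5 p ls →
  evw 1 ls (act 0 (-1) (5 * (p : ℤ) ^ n) 0 G) = -evw 1 ls G ∧ evw 1 ls (act (-1) 0 0 1 G) = evw 1 ls G

/-- AVG (`n ≥ 2`, `N = 5 p^n`, `M = 5 p^(n-1)`, `t_i = (p i; 0 p)`, `σ_i = (1 0; iM 1)`). -/
def SHAvg : Prop := ∀ (p : ℕ), p.Prime → p ≠ 5 → ∀ (n : ℕ) (G : ℤ → ℤ → ℂ), 2 ≤ n → SymH p 0 n G →
  SymH p 0 n (tSH p G) ∧ SymH p 0 (n - 1) (sSH p n G) ∧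
  SymH p 0 (n - 1) (act 0 (-1) (5 * (p : ℤ) ^ n) 0 (tSH p G)) ∧
  SymH p 0 n (act 0 (-1) (5 * (p : ℤ) ^ n) 0 G) ∧ SymH p 0 n (act (-1) 0 0 1 G)

/-- MON. -/
def SHMon : Prop := ∀ (p : ℕ) (R : Type) (_ : AddCommGroup R) (m n : ℕ) (G : ℤ → ℤ → R), m ≤ n →
  SymH p 0 m G → SymH p 0 n G

/-- COM (`n ≥ 3`). -/
def SHCom : Prop := ∀ (p : ℕ), p.Prime → p ≠ 5 → ∀ (n : ℕ) (G : ℤ → ℤ → ℂ), 3 ≤ n → SymH p 0 n G →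
  EqC (tSH p (tSH p G)) ((p : ℂ) • tSH p G) ∧
  EqC (sSH p n (sSH p n G)) ((p : ℂ) • sSH p n G) ∧
  EqC (tSH p (sSH p n G)) (sSH p n (tSH p G)) ∧
  EqC (tSH p (act 0 (-1) (5 * (p : ℤ) ^ n) 0 G)) (act 0 (-1) (5 * (p : ℤ) ^ n) 0 (sSH p n G)) ∧
  EqC (sSH p n (act 0 (-1) (5 * (p : ℤ) ^ n) 0 G)) (act 0 (-1) (5 * (p : ℤ) ^ n) 0 (tSH p G)) ∧
  EqC (tSH p (act (-1) 0 0 1 G)) (act (-1) 0 0 1 (tSH p G)) ∧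
  EqC (sSH p n (act (-1) 0 0 1 G)) (act (-1) 0 0 1 (sSH p n G)) ∧
  EqC (act 0 (-1) (5 * (p : ℤ) ^ n) 0 (act 0 (-1) (5 * (p : ℤ) ^ n) 0 G)) G ∧
  EqC (act (-1) 0 0 1 (act (-1) 0 0 1 G)) G ∧
  EqC (act 0 (-1) (5 * (p : ℤ) ^ n) 0 (act (-1) 0 0 1 G)) (act (-1) 0 0 1 (act 0 (-1) (5 * (p : ℤ) ^ n) 0 G))

/-- B3a (from AVG, MON, COM, EV). -/
def SHB3a : Prop := ∀ (p : ℕ), p.Prime → p ≠ 5 → ∀ (n : ℕ) (G : ℤ → ℤ → ℂ), 3 ≤ n → SymH p 0 n G →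
  ∃ G0 G1 : ℤ → ℤ → ℂ, SymH p 0 (n - 1) G0 ∧ NewSymH p n G1 ∧
    ∀ ls : List ℕ, OkH 5 p ls → evw 1 ls G = evw 1 ls G0 + evw 1 ls G1

/-- B3b with dimension `D`: the values at words of the symbols of level `n = 2` lie in a space of dimension `D`. -/
def B3bH (p D : ℕ) : Prop := ∃ e : Fin D → List ℕ → ℂ, ∀ G : ℤ → ℤ → ℂ, SymH p 0 2 G →
  ∃ x : Fin D → ℂ, ∀ ls : List ℕ, OkH 5 p ls → evw 1 ls G = ∑ i, x i * e i ls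

/-- UB: the space of new symbols of level `5 p^n` modulo constants has dimension at most `dd n` (`n ≥ 3`). -/
def UBH (p : ℕ) (dd : ℕ → ℕ) : Prop := ∀ n : ℕ, 3 ≤ n → ∃ Θ : NSH p n →ₗ[ℂ] (Fin (dd n) → ℂ),
  ∀ G : NSH p n, Θ G = 0 → EqC (G : ℤ → ℤ → ℂ) 0

/-- LB: the image of `evLH p` on the symbols of level `5 p^n` has dimension at least `D + ∑_{3 ≤ m ≤ n} dd m` (`n ≥ 2`). -/
def LBH (p D : ℕ) (dd : ℕ → ℕ) : Prop := ∀ n : ℕ, 2 ≤ n →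
  ∃ G : Fin (DDE D dd n) → (ℤ → ℤ → ℂ), (∀ k, SymH p 0 n (G k)) ∧
  LinearIndependent ℂ (fun k => evLH p (G k))

/-- Core: a new symbol of level `5 p^n`, `n ≥ 3`, with `W = -1`, `* = +1` which is killed by all words is constant. -/
def CoreH (p : ℕ) : Prop := ∀ (n : ℕ) (G : ℤ → ℤ → ℂ), 3 ≤ n → NewSymH p n G →
  (∀ ls : List ℕ, OkH 5 p ls → evw 1 ls G = 0) → EqC G 0

/-- CORE. -/
def SHCoreOf : Prop := SHB3a → ∀ (p D : ℕ) (dd : ℕ → ℕ), p.Prime → p ≠ 5 → B3bH p D → UBH p dd →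
  LBH p D dd → CoreH p

/-- Core for symbols of any type: killed by all words, `W = -1`, `* = +1` implies constant, at level `5 p^n`. -/
def CoreV (p n : ℕ) : Prop := ∀ G : ℤ → ℤ → ℂ, SymH p 0 n G →
  EqC (act 0 (-1) (5 * (p : ℤ) ^ n) 0 G) (-G) → EqC (act (-1) 0 0 1 G) G →
  (∀ ls : List ℕ, OkH 5 p ls → evw 1 ls G = 0) → EqC G 0

/-- A symbol `K` of level `5 p^2` with `K∘W ≈ -K`, `K∘* ≈ K` and `a K = 0` is constant. -/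
def BsG (p D : ℕ) (a : (ℤ → ℤ → ℂ) →ₗ[ℂ] (Fin D → ℂ)) : Prop := ∀ K : ℤ → ℤ → ℂ, SymH p 0 2 K →
  EqC (act 0 (-1) (5 * (p : ℤ) ^ 2) 0 K) (-K) → EqC (act (-1) 0 0 1 K) K → a K = 0 → EqC K 0

/-- B3b for all `p ≠ 5`. -/
def SHB3bG : Prop := ∀ (p D : ℕ) (a : (ℤ → ℤ → ℂ) →ₗ[ℂ] (Fin D → ℂ)), p.Prime → p ≠ 5 →
  SHAvg → SHEv → BsG p D a → B3bH p D

/-- CORE2 for all `p ≠ 5`. -/
def SHCore2G : Prop := ∀ (p D : ℕ) (a : (ℤ → ℤ → ℂ) →ₗ[ℂ] (Fin D → ℂ)), p.Prime → p ≠ 5 →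
  ∀ dd : ℕ → ℕ, SHAvg → SHEv → BsG p D a → LBH p D dd → CoreV p 2

end Pool.Agent.Helper83.T5C
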