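import Pool.Agent.Helper83.T5C.M_Far

/-!
# Levels `5·3^n`: the level `15`

The list of steps has been made by a program.
-/

set_option autoImplicit false

namespace Pool.Agent.Helper83.T5C

open Pool.Agent.Helper14.CV (Homog EqC act Tl StFar StFex)
open Pool.Agent.Helper28.WK (Tw evw)
open Pool.Agent.Helper28.TH (OkH)
open Pool.Agent.Helper28.T5

private theorem nz {a b c d e : ℤ} (h : a * d - b * c = e) (he : e ≠ 0) :
    (a ≠ 0 ∨ c ≠ 0) ∧ (b ≠ 0 ∨ d ≠ 0) := by
  constructor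
  · by_contra hcon
    push Not at hcon
    rw [hcon.1, hcon.2] at h
    apply he
    rw [← h]
    ring
  · by_contra hcon
    push Not at hcon
    rw [hcon.1, hcon.2] at h
    apply he
    rw [← h]
    ring

/-- The representatives of determinant one. -/
private def L1 : List (ℤ × ℤ × ℤ × ℤ) :=
  [(1, 0, 0, 1),
    (1, 0, -5, 1),
    (1, 0, 5, 1)]

/-- The representatives of determinant `5`. -/
private def L2 : List (ℤ × ℤ × ℤ × ℤ) :=
  [(0, 1, -5, 0)]

/-- The representatives of the second kind. -/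
private def L3 : List (ℤ × ℤ × ℤ × ℤ) :=
  [(1, 0, -3, 1),
    (0, -1, 1, 3),
    (0, 1, -1, 2),
    (1, 0, 2, 1)]

private lemma cls : ∀ r s : ZMod 3, (r ≠ 0 ∨ s ≠ 0) → ∃ t ∈ L1 ++ L2,
    r * (t.2.2.2 : ZMod 3) - s * (t.2.2.1 : ZMod 3) = 0 := by decide

private lemma cls2 : ∀ r s : ZMod 3, (r ≠ 0 ∨ s ≠ 0) → ∃ t ∈ L3,
    r * (t.2.2.2 : ZMod 3) - s * (t.2.2.1 : ZMod 3) = 0 := by decide

private lemma dvdp {n : ℤ} : (3 : ℤ) ∣ n ↔ (n : ZMod 3) = 0 :=
  (ZMod.intCast_zmod_eq_zero_iff_dvd n 3).symm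

/-- Level `15`. -/
theorem hCore31 (hfar : StFar) : CoreV 3 1 := by
  intro F hS hW hst hev
  have gam : ∀ a b c d : ℤ, HTy a b c d → (3 : ℤ) ∣ c → ∀ x y z w : ℤ, (x ≠ 0 ∨ y ≠ 0) →
      (z ≠ 0 ∨ w ≠ 0) → F (a * x + b * y) (c * x + d * y) - F (a * z + b * w) (c * z + d * w) =
        F x y - F z w := by
    intro a b c d hT hc x y z w hv hw
    exact (hS.2 a b c d hT (by simp) (by simpa using hc)).diff hv hw
  have hs : ∀ (k x y : ℤ), k ≠ 0 → (x ≠ 0 ∨ y ≠ 0) → F (k * x) (k * y) = F x y := hS.1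
  obtain ⟨κ, hκ⟩ : ∃ κ : ℂ, κ = F 1 0 := ⟨_, rfl⟩
  have k0 : F 1 0 = κ := hκ.symm
  have b0 : F 0 1 = κ := by
    have h01 : F 1 0 - F 0 1 = 0 := hev [] (by intro l hl; simp at hl)
    linear_combination k0 - h01
  have a0 : F (-1) 0 = κ := by
    have := hs (-1) 1 0 (by norm_num) (by norm_num)
    norm_num at this
    rw [this, k0]
  have st : ∀ x y : ℤ, (x ≠ 0 ∨ y ≠ 0) → F (-x) y = F x y := by
    intro x y hv
    have e := hst.diff (p := x) (q := y) (p' := 1) (q' := 0) hv (by norm_num)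
    simp only [act] at e
    norm_num at e
    rw [a0] at e
    linear_combination e - k0
  have cl : ∀ x y : ℤ, (x ≠ 0 ∨ y ≠ 0) → F x y = κ → ∀ k X Y : ℤ, k ≠ 0 →
      ((X = k * x ∧ Y = k * y) ∨ (X = -(k * x) ∧ Y = k * y)) → F X Y = κ := by
    rintro x y hv hx k X Y hk (⟨rfl, rfl⟩ | ⟨rfl, rfl⟩)
    · rw [hs k x y hk hv, hx]
    · have e : -(k * x) = k * (-x) := by ring
      rw [e, hs k (-x) y hk (by rcases hv with h | h; exacts [Or.inl (neg_ne_zero.2 h), Or.inr h]),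
        st x y hv, hx]
  have stn : ∀ x y X : ℤ, (X = -x ∧ (x ≠ 0 ∨ y ≠ 0)) → F X y = F x y := by
    rintro x y X ⟨rfl, hv⟩
    exact st x y hv
  have G : ∀ a b c d : ℤ, HTy a b (3 * c) d → ∀ x y z w X Y Z W k l : ℤ,
      ((x ≠ 0 ∨ y ≠ 0) ∧ (z ≠ 0 ∨ w ≠ 0) ∧ (X ≠ 0 ∨ Y ≠ 0) ∧ (Z ≠ 0 ∨ W ≠ 0) ∧ k ≠ 0 ∧ l ≠ 0 ∧
        a * x + b * y = k * X ∧ 3 * c * x + d * y = k * Y ∧
        a * z + b * w = l * Z ∧ 3 * c * z + d * w = l * W) →
      F X Y - F Z W = F x y - F z w := by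
    rintro a b c d hT x y z w X Y Z W k l ⟨n1, n2, n3, n4, hk, hl, q1, q2, q3, q4⟩
    have e := gam a b (3 * c) d hT ⟨c, rfl⟩ x y z w n1 n2
    rw [q1, q2, q3, q4, hs k X Y hk n3, hs l Z W hl n4] at e
    exact e
  have e1 : F (1) (5) = F (0) (1) := by
    linear_combination 1 / 2 * (G (5) (-1) (10) (-5) (Or.inr (by decide)) (0) (1) (1) (5) (1) (5) (0) (1) (-1) (5) (by decide))
  have c1_5 : F 1 5 = κ := e1.trans b0
  have e2 : F (1) (3) = F (1) (0) := by
    linear_combination 1 / 2 * (G (5) (-2) (5) (-5) (Or.inr (by decide)) (1) (0) (1) (3) (1) (3) (1) (0) (5) (-1) (by decide))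
  have c1_3 : F 1 3 = κ := e2.trans k0
  have e3 : F (2) (5) = F (1) (2) := by
    linear_combination 1 / 2 * (G (20) (-9) (15) (-20) (Or.inr (by decide)) (1) (2) (2) (5) (2) (5) (1) (2) (1) (-5) (by decide))
  have e4 : F (2) (5) = F (0) (1) := by
    linear_combination 1 / 2 * (G (5) (-2) (5) (-5) (Or.inr (by decide)) (0) (1) (2) (5) (2) (5) (0) (1) (-1) (5) (by decide))
  have c2_5 : F 2 5 = κ := e4.trans b0
  have c1_2 : F 1 2 = κ := (e3.symm.trans c2_5)
  have hL : ∀ t ∈ L1 ++ L2, HTy t.1 t.2.1 t.2.2.1 t.2.2.2 ∧ F t.1 t.2.2.1 = F t.2.1 t.2.2.2 := by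
    intro t ht
    simp only [L1, L2, List.cons_append, List.nil_append, List.mem_cons, List.not_mem_nil,
      or_false] at ht
    rcases ht with rfl | rfl | rfl | rfl
    · exact ⟨Or.inl (by decide), (cl 1 0 (by decide) k0 (1) _ _ (by decide) (by decide)).trans
        (cl 0 1 (by decide) b0 (1) _ _ (by decide) (by decide)).symm⟩
    · exact ⟨Or.inl (by decide), (cl 1 5 (by decide) c1_5 (-1) _ _ (by decide) (by decide)).trans
        (cl 0 1 (by decide) b0 (1) _ _ (by decide) (by decide)).symm⟩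
    · exact ⟨Or.inl (by decide), (cl 1 5 (by decide) c1_5 (1) _ _ (by decide) (by decide)).trans
        (cl 0 1 (by decide) b0 (1) _ _ (by decide) (by decide)).symm⟩
    · exact ⟨Or.inr (by decide), (cl 0 1 (by decide) b0 (-5) _ _ (by decide) (by decide)).trans
        (cl 1 0 (by decide) k0 (1) _ _ (by decide) (by decide)).symm⟩
  have hL' : ∀ t ∈ L3, (t.1 * t.2.2.2 - t.2.1 * t.2.2.1 = 1 ∧ (5 : ℤ) ∣ t.2.2.1 - 2 * t.2.2.2) ∧
      F t.1 t.2.2.1 = F t.2.1 t.2.2.2 := by
    intro t ht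
    simp only [L3, List.mem_cons, List.not_mem_nil, or_false] at ht
    rcases ht with rfl | rfl | rfl | rfl
    · exact ⟨by decide, (cl 1 3 (by decide) c1_3 (-1) _ _ (by decide) (by decide)).trans
        (cl 0 1 (by decide) b0 (1) _ _ (by decide) (by decide)).symm⟩
    · exact ⟨by decide, (cl 0 1 (by decide) b0 (1) _ _ (by decide) (by decide)).trans
        (cl 1 3 (by decide) c1_3 (1) _ _ (by decide) (by decide)).symm⟩
    · exact ⟨by decide, (cl 0 1 (by decide) b0 (-1) _ _ (by decide) (by decide)).trans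
        (cl 1 2 (by decide) c1_2 (1) _ _ (by decide) (by decide)).symm⟩
    · exact ⟨by decide, (cl 1 2 (by decide) c1_2 (1) _ _ (by decide) (by decide)).trans
        (cl 0 1 (by decide) b0 (1) _ _ (by decide) (by decide)).symm⟩
  have hc : ∀ p q r s : ℤ, p * s - q * r = 1 → (r : ZMod 3) ≠ 0 ∨ (s : ZMod 3) ≠ 0 := by
    intro p q r s hd
    by_contra hcon
    push Not at hcon
    have h' := congrArg (Int.cast : ℤ → ZMod 3) hd
    push_cast at h'
    rw [hcon.1, hcon.2, mul_zero, mul_zero, sub_zero] at h'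
    exact absurd h' (by decide)
  refine farQ hfar F hS.1 st (fun p q r s hd hpar => ?_) (fun p q r s hd hpar => ?_)
  · have hpr := (nz hd one_ne_zero).1
    have hqs := (nz hd one_ne_zero).2
    obtain ⟨t, htL, e2'⟩ := cls _ _ (hc p q r s hd)
    obtain ⟨hr, h0⟩ := hL t htL
    have e2 : (3 : ℤ) ∣ r * t.2.2.2 - s * t.2.2.1 := dvdp.2 (by push_cast; exact e2')
    obtain ⟨r1, r2, r3, r4⟩ := t
    simp only at hr h0 e2
    rcases hr with ⟨hr, hr3⟩ | ⟨hr, hr1, hr3, hr4⟩
    · obtain ⟨n1, n2⟩ := nz hr one_ne_zero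
      have hT : HTy (p * r4 - q * r3) (q * r1 - p * r2) (r * r4 - s * r3) (s * r1 - r * r2) := by
        refine Or.inl ⟨?_, ?_⟩
        · linear_combination (p * s - q * r) * hr + hd
        · exact dvd_sub (Dvd.dvd.mul_right hpar _) (Dvd.dvd.mul_left hr3 _)
      have e := gam _ _ _ _ hT e2 r1 r3 r2 r4 n1 n2
      have g1 : (p * r4 - q * r3) * r1 + (q * r1 - p * r2) * r3 = p := by
        linear_combination p * hr
      have g2 : (r * r4 - s * r3) * r1 + (s * r1 - r * r2) * r3 = r := by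
        linear_combination r * hr
      have g3 : (p * r4 - q * r3) * r2 + (q * r1 - p * r2) * r4 = q := by
        linear_combination q * hr
      have g4 : (r * r4 - s * r3) * r2 + (s * r1 - r * r2) * r4 = s := by
        linear_combination s * hr
      rw [g1, g2, g3, g4, h0, sub_self] at e
      exact sub_eq_zero.1 e
    · obtain ⟨n1, n2⟩ := nz hr (by norm_num)
      have hT : HTy (p * r4 - q * r3) (q * r1 - p * r2) (r * r4 - s * r3) (s * r1 - r * r2) := by
        refine Or.inr ⟨?_, ?_, ?_, ?_⟩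
        · linear_combination (p * s - q * r) * hr + 5 * hd
        · exact dvd_sub (Dvd.dvd.mul_left hr4 _) (Dvd.dvd.mul_left hr3 _)
        · exact dvd_sub (Dvd.dvd.mul_right hpar _) (Dvd.dvd.mul_left hr3 _)
        · exact dvd_sub (Dvd.dvd.mul_left hr1 _) (Dvd.dvd.mul_right hpar _)
      have e := gam _ _ _ _ hT e2 r1 r3 r2 r4 n1 n2
      have g1 : (p * r4 - q * r3) * r1 + (q * r1 - p * r2) * r3 = 5 * p := by
        linear_combination p * hr
      have g2 : (r * r4 - s * r3) * r1 + (s * r1 - r * r2) * r3 = 5 * r := by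
        linear_combination r * hr
      have g3 : (p * r4 - q * r3) * r2 + (q * r1 - p * r2) * r4 = 5 * q := by
        linear_combination q * hr
      have g4 : (r * r4 - s * r3) * r2 + (s * r1 - r * r2) * r4 = 5 * s := by
        linear_combination s * hr
      rw [g1, g2, g3, g4, h0, sub_self, hs 5 p r (by norm_num) hpr,
        hs 5 q s (by norm_num) hqs] at e
      exact sub_eq_zero.1 e
  · obtain ⟨t, htL, e2'⟩ := cls2 _ _ (hc p q r s hd)
    obtain ⟨⟨hr, hr3⟩, h0⟩ := hL' t htL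
    have e2 : (3 : ℤ) ∣ r * t.2.2.2 - s * t.2.2.1 := dvdp.2 (by push_cast; exact e2')
    obtain ⟨r1, r2, r3, r4⟩ := t
    simp only at hr h0 e2 hr3
    obtain ⟨n1, n2⟩ := nz hr one_ne_zero
    have hT : HTy (p * r4 - q * r3) (q * r1 - p * r2) (r * r4 - s * r3) (s * r1 - r * r2) := by
      refine Or.inl ⟨?_, ?_⟩
      · linear_combination (p * s - q * r) * hr + hd
      · have e : r * r4 - s * r3 = r4 * (r - 2 * s) - s * (r3 - 2 * r4) := by ring
        rw [e]
        exact dvd_sub (Dvd.dvd.mul_left hpar _) (Dvd.dvd.mul_left hr3 _)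
    have e := gam _ _ _ _ hT e2 r1 r3 r2 r4 n1 n2
    have g1 : (p * r4 - q * r3) * r1 + (q * r1 - p * r2) * r3 = p := by
      linear_combination p * hr
    have g2 : (r * r4 - s * r3) * r1 + (s * r1 - r * r2) * r3 = r := by
      linear_combination r * hr
    have g3 : (p * r4 - q * r3) * r2 + (q * r1 - p * r2) * r4 = q := by
      linear_combination q * hr
    have g4 : (r * r4 - s * r3) * r2 + (s * r1 - r * r2) * r4 = s := by
      linear_combination s * hr
    rw [g1, g2, g3, g4, h0, sub_self] at e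
    exact sub_eq_zero.1 e

end Pool.Agent.Helper83.T5C
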