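import Pool.Agent.Helper83.T5C.M_Bs3
import Pool.Agent.Helper83.T5C.M_Core31

/-!
# The cores for levels `5·3^n` from the upper and the lower bound
-/

set_option autoImplicit false

namespace Pool.Agent.Helper83.T5C

open Pool.Agent.Helper28.T5

theorem b3b3Q : B3bH 3 2 := b3bQ (by norm_num) (by norm_num) bsG3Q

/-- The core for levels `5·3^n`, `n ≥ 3`. -/
theorem core3Q (dd : ℕ → ℕ) (ub : UBH 3 dd) (lb : LBH 3 2 dd) : CoreH 3 :=
  coreQ (by norm_num) (by norm_num) bsG3Q ub lb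

theorem core32Q (dd : ℕ → ℕ) (lb : LBH 3 2 dd) : CoreV 3 2 :=
  core2Q (by norm_num) (by norm_num) bsG3Q lb

theorem core31Q : CoreV 3 1 := hCore31 Pool.Agent.Helper38.CV.hFar

end Pool.Agent.Helper83.T5C
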