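import Pool.Agent.Helper83.T5C.StB

/-!
# Project TK (MP_1d384c_nt), module Com: relations between the averages, `W` and `*`
-/

set_option autoImplicit false

namespace Pool.Agent.Helper83.T5C

open Pool.Agent.Helper14.CV (Homog EqC act Tl StFar StFex act_act act_one)
open Pool.Agent.Helper28.WK (Tw evw)
open Pool.Agent.Helper93.TLE (DDE)
open Pool.Agent.Helper28.TH (OkH)
open Pool.Agent.Helper28.T5 Pool.Agent.Helper83.T5C

/-- two matrices which differ by a scalar and an element of the group on the left act equally -/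
private theorem rel {p n : ℕ} {G : ℤ → ℤ → ℂ} (h : SymH p 0 n G)
    (k1 k2 a b c d a1 b1 c1 d1 a2 b2 c2 d2 : ℤ)
    (hk1 : k1 ≠ 0) (hk2 : k2 ≠ 0) (hd : a * d - b * c = 1) (hc : (p : ℤ) ^ n ∣ c)
    (hc2 : (5 : ℤ) ∣ c)
    (hd1 : a1 * d1 - b1 * c1 ≠ 0) (hd2 : a2 * d2 - b2 * c2 ≠ 0)
    (e1 : k1 * a1 = k2 * (a * a2 + b * c2)) (e2 : k1 * b1 = k2 * (a * b2 + b * d2))
    (e3 : k1 * c1 = k2 * (c * a2 + d * c2)) (e4 : k1 * d1 = k2 * (c * b2 + d * d2)) :
    EqC (act a1 b1 c1 d1 G) (act a2 b2 c2 d2 G) := by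
  have h1 : EqC (act (k1 * a1) (k1 * b1) (k1 * c1) (k1 * d1) G) (act a1 b1 c1 d1 G) :=
    h.1.scale k1 hk1 hd1
  have hdet : (a * a2 + b * c2) * (c * b2 + d * d2) - (a * b2 + b * d2) * (c * a2 + d * c2) ≠ 0 := by
    have e : (a * a2 + b * c2) * (c * b2 + d * d2) - (a * b2 + b * d2) * (c * a2 + d * c2)
        = (a * d - b * c) * (a2 * d2 - b2 * c2) := by ring
    rw [e, hd, one_mul]
    exact hd2
  have h2 := h.1.scale k2 hk2 hdet
  have h0 := h.2 a b c d (Or.inl ⟨hd, hc2⟩) (by rw [pow_zero]; exact one_dvd _) hc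
  have h3 : EqC (act a2 b2 c2 d2 (act a b c d G)) (act a2 b2 c2 d2 G) := h0.act hd2
  rw [act_act] at h3
  rw [e1, e2, e3, e4] at h1
  exact h1.symm.trans (h2.trans h3)

private theorem act_sum (a b c d : ℤ) (s : Finset ℕ) (F : ℕ → ℤ → ℤ → ℂ) :
    act a b c d (∑ i ∈ s, F i) = ∑ i ∈ s, act a b c d (F i) := by
  funext x y
  simp [act, Finset.sum_apply]

private theorem per {p : ℕ} (f : ℤ → ℤ → ℤ → ℂ) (h : ∀ i, EqC (f (i + p)) (f i)) (k : ℤ) :
    ∀ i, EqC (f (i + p * k)) (f i) := by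
  induction k using Int.induction_on with
  | zero => intro i; rw [mul_zero, add_zero]; exact EqC.refl _
  | succ k ih =>
    intro i
    have e : i + (p : ℤ) * ((k : ℤ) + 1) = (i + p * k) + p := by ring
    rw [e]
    exact (h _).trans (ih i)
  | pred k ih =>
    intro i
    have h1 := h (i + (p : ℤ) * (-(k : ℤ) - 1))
    have e : i + (p : ℤ) * (-(k : ℤ) - 1) + p = i + p * (-(k : ℤ)) := by ring
    rw [e] at h1
    exact h1.symm.trans (ih i)

private theorem reindex {p : ℕ} (hp : 0 < p) (f : ℤ → ℤ → ℤ → ℂ)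
    (h : ∀ i, EqC (f (i + p)) (f i)) (σ : ℤ → ℤ)
    (hσ : ∀ i j : ℤ, (p : ℤ) ∣ σ i - σ j → (p : ℤ) ∣ i - j) :
    EqC (∑ i ∈ Finset.range p, f (σ (i : ℤ))) (∑ i ∈ Finset.range p, f (i : ℤ)) := by
  have hp' : (0 : ℤ) < p := by exact_mod_cast hp
  let τ : ℕ → ℕ := fun i => (σ (i : ℤ) % p).toNat
  have hτ : ∀ i : ℕ, ((τ i : ℕ) : ℤ) = σ (i : ℤ) % p := fun i =>
    Int.toNat_of_nonneg (Int.emod_nonneg _ hp'.ne')
  have hτlt : ∀ i : ℕ, τ i < p := by
    intro i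
    have h1 := Int.emod_lt_of_pos (σ (i : ℤ)) hp'
    have h2 := hτ i
    omega
  have hinj : Set.InjOn τ (Finset.range p : Set ℕ) := by
    intro i hi j hj hij
    have hi' : i < p := by simpa using hi
    have hj' : j < p := by simpa using hj
    have h1 : σ (i : ℤ) % p = σ (j : ℤ) % p := by
      rw [← hτ i, ← hτ j, hij]
    have h2 : (p : ℤ) ∣ σ (i : ℤ) - σ (j : ℤ) := Int.ModEq.dvd (Int.ModEq.symm h1)
    have h3 := hσ _ _ h2
    obtain ⟨k, hk⟩ := h3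
    have h4 : (i : ℤ) - j < p := by omega
    have h5 : -(p : ℤ) < (i : ℤ) - j := by omega
    have hk0 : k = 0 := by
      by_contra hk0
      rcases lt_or_gt_of_ne hk0 with hneg | hpos
      · have : (p : ℤ) * k ≤ -p := by nlinarith
        omega
      · have : (p : ℤ) ≤ p * k := by nlinarith
        omega
    rw [hk0, mul_zero] at hk
    omega
  have himg : (Finset.range p).image τ = Finset.range p := by
    refine Finset.eq_of_subset_of_card_le ?_ ?_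
    · intro j hj
      obtain ⟨i, _, rfl⟩ := Finset.mem_image.1 hj
      exact Finset.mem_range.2 (hτlt i)
    · rw [Finset.card_image_of_injOn hinj]
  have h1 : EqC (∑ i ∈ Finset.range p, f (σ (i : ℤ))) (∑ i ∈ Finset.range p, f ((τ i : ℕ) : ℤ)) := by
    refine Pool.Agent.Helper28.WK.EqC.sum _ fun i _ => ?_
    rw [hτ i]
    have h2 := per f h (σ (i : ℤ) / p) (σ (i : ℤ) % p)
    rwa [Int.emod_add_mul_ediv] at h2
  have h2 : ∑ i ∈ Finset.range p, f ((τ i : ℕ) : ℤ) = ∑ i ∈ Finset.range p, f (i : ℤ) := by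
    conv_rhs => rw [← himg]
    rw [Finset.sum_image hinj]
  rwa [h2] at h1

private theorem sum_const' (p : ℕ) (H : ℤ → ℤ → ℂ) :
    ∑ _i ∈ Finset.range p, H = (p : ℂ) • H := by
  rw [Finset.sum_const, Finset.card_range, Nat.cast_smul_eq_nsmul]

theorem hCom : SHCom := by
  intro p hp _hp2 n G hn h
  obtain ⟨m, rfl⟩ : ∃ m, n = m + 3 := ⟨n - 3, by omega⟩
  have hp0 : 0 < p := hp.pos
  obtain ⟨q, hq⟩ : ∃ q : ℤ, q = (p : ℤ) := ⟨_, rfl⟩
  have hq0 : q ≠ 0 := by rw [hq]; exact_mod_cast hp0.ne'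
  obtain ⟨u, hu⟩ : ∃ u : ℤ, u = (p : ℤ) ^ m := ⟨_, rfl⟩
  have hu0 : u ≠ 0 := by rw [hu, ← hq]; exact pow_ne_zero _ hq0
  have e1 : (p : ℤ) ^ (m + 3 - 1) = q ^ 2 * u := by
    rw [show m + 3 - 1 = m + 2 by omega, pow_add, hu, hq]; ring
  have e2 : (p : ℤ) ^ (m + 3) = q ^ 3 * u := by
    rw [pow_add, hu, hq]; ring
  have key := fun k1 k2 a b c d a1 b1 c1 d1 a2 b2 c2 d2 hk1 hk2 hd (hc : q ^ 3 * u ∣ c) =>
    rel h k1 k2 a b c d a1 b1 c1 d1 a2 b2 c2 d2 hk1 hk2 hd (by rw [e2]; exact hc)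
  have hqq : q * q ≠ 0 := mul_ne_zero hq0 hq0
  have hN : q ^ 3 * u ≠ 0 := mul_ne_zero (pow_ne_zero _ hq0) hu0
  have d0 : (5 : ℤ) ∣ 0 := dvd_zero _
  -- the families
  let T : ℤ → ℤ → ℤ → ℂ := fun i => act q i 0 q G
  let S : ℤ → ℤ → ℤ → ℂ := fun i => act 1 0 (5 * i * (q ^ 2 * u)) 1 G
  have hT : ∀ i, EqC (T (i + p)) (T i) := by
    intro i
    rw [← hq]
    have := key 1 1 1 1 0 1 q (i + q) 0 q q i 0 q one_ne_zero one_ne_zero (by ring) (dvd_zero _)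
      d0 (by simpa using hq0) (by simpa using hq0) (by ring) (by ring) (by ring) (by ring)
    exact this
  have hS : ∀ i, EqC (S (i + p)) (S i) := by
    intro i
    rw [← hq]
    have := key 1 1 1 0 (5 * (q ^ 3 * u)) 1 1 0 (5 * (i + q) * (q ^ 2 * u)) 1 1 0 (5 * i * (q ^ 2 * u)) 1
      one_ne_zero one_ne_zero (by ring) (dvd_mul_left _ _) (dvd_mul_right _ _) (by norm_num) (by norm_num)
      (by ring) (by ring) (by ring) (by ring)
    exact this
  have hsh : ∀ c i j : ℤ, (p : ℤ) ∣ (i + c) - (j + c) → (p : ℤ) ∣ i - j := by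
    intro c i j hd
    have e : i + c - (j + c) = i - j := by ring
    rwa [e] at hd
  have hng : ∀ i j : ℤ, (p : ℤ) ∣ -i - -j → (p : ℤ) ∣ i - j := by
    intro i j hd
    have e : -i - -j = -(i - j) := by ring
    rw [e] at hd
    exact (dvd_neg.1 hd)
  have htS : ∀ H : ℤ → ℤ → ℂ, tSH p H = ∑ i ∈ Finset.range p, act q (i : ℤ) 0 q H := by
    intro H
    rw [hq]
    rfl
  have hsS : ∀ H : ℤ → ℤ → ℂ, sSH p (m + 3) H =
      ∑ i ∈ Finset.range p, act 1 0 (5 * (i : ℤ) * (q ^ 2 * u)) 1 H := by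
    intro H
    unfold sSH
    rw [e1]
  refine ⟨?_, ?_, ?_, ?_, ?_, ?_, ?_, ?_, ?_, ?_⟩
  · rw [htS (tSH p G), ← sum_const' p (tSH p G)]
    refine Pool.Agent.Helper28.WK.EqC.sum _ fun i _ => ?_
    rw [htS G, act_sum]
    refine (Pool.Agent.Helper28.WK.EqC.sum _ fun j _ => ?_).trans
      (reindex hp0 T hT (fun j => j + i) (hsh i))
    rw [act_act]
    have := key 1 q 1 0 0 1 (q * q) (q * ((j : ℤ) + i)) 0 (q * q) q ((j : ℤ) + i) 0 q one_ne_zero hq0 (by ring)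
      (dvd_zero _) d0 (by simpa using hq0) (by simpa using hq0) (by ring) (by ring) (by ring) (by ring)
    convert this using 2 <;> ring
  · rw [hsS (sSH p (m + 3) G), ← sum_const' p (sSH p (m + 3) G)]
    refine Pool.Agent.Helper28.WK.EqC.sum _ fun i _ => ?_
    rw [hsS G, act_sum]
    refine (Pool.Agent.Helper28.WK.EqC.sum _ fun j _ => ?_).trans
      (reindex hp0 S hS (fun j => j + i) (hsh i))
    rw [act_act]
    have e : act (1 * 1 + 0 * (5 * (i : ℤ) * (q ^ 2 * u))) (1 * 0 + 0 * 1)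
        (5 * (j : ℤ) * (q ^ 2 * u) * 1 + 1 * (5 * (i : ℤ) * (q ^ 2 * u)))
        (5 * (j : ℤ) * (q ^ 2 * u) * 0 + 1 * 1) G = S ((j : ℤ) + i) := by
      show _ = act 1 0 (5 * ((j : ℤ) + i) * (q ^ 2 * u)) 1 G
      congr 1 <;> ring
    rw [e]
    exact EqC.refl _
  · rw [htS (sSH p (m + 3) G), hsS (tSH p G), hsS G, htS G]
    simp only [act_sum]
    rw [Finset.sum_comm]
    refine Pool.Agent.Helper28.WK.EqC.sum _ fun j _ => Pool.Agent.Helper28.WK.EqC.sum _ fun i _ => ?_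
    rw [act_act, act_act]
    obtain ⟨I, hI⟩ : ∃ I : ℤ, I = (i : ℤ) := ⟨_, rfl⟩
    obtain ⟨J, hJ⟩ : ∃ J : ℤ, J = 5 * (j : ℤ) := ⟨_, rfl⟩
    rw [← hI, ← hJ]
    have := key 1 1 (1 - I * J * q * u) (I ^ 2 * J * u)
      (-(I * J ^ 2 * q ^ 3 * u ^ 2)) (1 + I * J * q * u + I ^ 2 * J ^ 2 * q ^ 2 * u ^ 2)
      q I (J * q ^ 3 * u) (J * I * q ^ 2 * u + q)
      (q + I * J * q ^ 2 * u) I (J * q ^ 3 * u) q
      one_ne_zero one_ne_zero (by ring) ⟨-(I * J ^ 2 * u), by ring⟩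
      ⟨-(I * j * J * q ^ 3 * u ^ 2), by rw [hJ]; ring⟩
      (by ring_nf; simpa using hq0) (by ring_nf; simpa using hq0) (by ring) (by ring) (by ring) (by ring)
    convert this using 2 <;> ring
  · rw [e2, htS, hsS, act_sum]
    refine (Pool.Agent.Helper28.WK.EqC.sum _ fun i _ => ?_).trans
      (reindex hp0 (fun i => act 0 (-1) (5 * (q ^ 3 * u)) 0 (S i))
        (fun i => (hS i).act (by simpa using hN)) (fun i => -i) hng)
    rw [act_act]
    show EqC _ (act 0 (-1) (5 * (q ^ 3 * u)) 0 (act 1 0 (5 * -(i : ℤ) * (q ^ 2 * u)) 1 G))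
    rw [act_act]
    have := key 1 q 1 0 0 1 0 (-q) (5 * (q ^ 3 * u) * q) (5 * (q ^ 3 * u) * i) 0 (-1) (5 * (q ^ 3 * u))
      (5 * i * (q ^ 2 * u)) one_ne_zero hq0 (by ring) (dvd_zero _) d0
      (by simpa using ⟨hq0, ⟨hq0, hu0⟩, hq0⟩) (by simpa using ⟨hq0, hu0⟩) (by ring) (by ring) (by ring) (by ring)
    convert this using 2 <;> ring
  · rw [e2, htS, hsS, act_sum]
    refine (Pool.Agent.Helper28.WK.EqC.sum _ fun i _ => ?_).trans
      (reindex hp0 (fun i => act 0 (-1) (5 * (q ^ 3 * u)) 0 (T i))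
        (fun i => (hT i).act (by simpa using hN)) (fun i => -i) hng)
    rw [act_act]
    show EqC _ (act 0 (-1) (5 * (q ^ 3 * u)) 0 (act q (-(i : ℤ)) 0 q G))
    rw [act_act]
    have := key q 1 1 0 0 1 (-(5 * i * (q ^ 2 * u))) (-1) (5 * (q ^ 3 * u)) 0 (-(5 * i * (q ^ 3 * u))) (-q)
      (q * (5 * (q ^ 3 * u))) 0 hq0 one_ne_zero (by ring) (dvd_zero _) d0
      (by simpa using ⟨hq0, hu0⟩) (by simpa using ⟨hq0, hu0⟩) (by ring) (by ring) (by ring) (by ring)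
    convert this using 2 <;> ring
  · rw [htS, htS, act_sum]
    refine (Pool.Agent.Helper28.WK.EqC.sum _ fun i _ => ?_).trans
      (reindex hp0 (fun i => act (-1) 0 0 1 (T i)) (fun i => (hT i).act (by norm_num))
        (fun i => -i) hng)
    rw [act_act]
    show EqC _ (act (-1) 0 0 1 (act q (-(i : ℤ)) 0 q G))
    rw [act_act]
    have e : act (-1 * q + 0 * 0) (-1 * (i : ℤ) + 0 * q) (0 * q + 1 * 0) (0 * (i : ℤ) + 1 * q) G =
        act (q * -1 + -(i : ℤ) * 0) (q * 0 + -(i : ℤ) * 1) (0 * -1 + q * 0) (0 * 0 + q * 1) G := by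
      congr 1 <;> ring
    rw [e]
    exact EqC.refl _
  · rw [hsS, hsS, act_sum]
    refine (Pool.Agent.Helper28.WK.EqC.sum _ fun i _ => ?_).trans
      (reindex hp0 (fun i => act (-1) 0 0 1 (S i)) (fun i => (hS i).act (by norm_num))
        (fun i => -i) hng)
    rw [act_act]
    show EqC _ (act (-1) 0 0 1 (act 1 0 (5 * -(i : ℤ) * (q ^ 2 * u)) 1 G))
    rw [act_act]
    have e : act (-1 * 1 + 0 * (5 * (i : ℤ) * (q ^ 2 * u))) (-1 * 0 + 0 * 1)
        (0 * 1 + 1 * (5 * (i : ℤ) * (q ^ 2 * u))) (0 * 0 + 1 * 1) G =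
        act (1 * -1 + 0 * 0) (1 * 0 + 0 * 1) (5 * -(i : ℤ) * (q ^ 2 * u) * -1 + 1 * 0)
          (5 * -(i : ℤ) * (q ^ 2 * u) * 0 + 1 * 1) G := by
      congr 1 <;> ring
    rw [e]
    exact EqC.refl _
  · rw [e2, act_act]
    have := key 1 (-(5 * (q ^ 3 * u))) 1 0 0 1 (-(5 * (q ^ 3 * u))) 0 0 (-(5 * (q ^ 3 * u))) 1 0 0 1 one_ne_zero
      (neg_ne_zero.mpr (mul_ne_zero (by norm_num) hN)) (by ring) (dvd_zero _) d0
      (by simpa using ⟨hq0, hu0⟩) (by norm_num) (by ring) (by ring) (by ring) (by ring)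
    rw [act_one] at this
    convert this using 2 <;> ring
  · rw [act_act]
    have e : act (-1 * -1 + 0 * 0) (-1 * 0 + 0 * 1) (0 * -1 + 1 * 0) (0 * 0 + 1 * 1) G = G := by
      norm_num [act_one]
    rw [e]
    exact EqC.refl _
  · rw [e2, act_act, act_act]
    have := key 1 (-1) 1 0 0 1 0 1 (5 * (q ^ 3 * u)) 0 0 (-1) (-(5 * (q ^ 3 * u))) 0
      one_ne_zero (by norm_num) (by ring) (dvd_zero _) d0
      (by simpa using ⟨hq0, hu0⟩) (by simpa using ⟨hq0, hu0⟩) (by ring) (by ring) (by ring) (by ring)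
    convert this using 2 <;> ring

end Pool.Agent.Helper83.T5C
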