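import Pool.Agent.Helper83.T5C.StB

/-!
# Project TK, module Core2G: the core statement at level `5 p^2`
-/

set_option autoImplicit false

namespace Pool.Agent.Helper83.T5C

open Pool.Agent.Helper14.CV (Homog EqC act Tl StFar StFex)
open Pool.Agent.Helper28.WK (Tw evw)
open Pool.Agent.Helper93.TLE (DDE)
open Pool.Agent.Helper28.TH (OkH)
open Pool.Agent.Helper28.T5 Pool.Agent.Helper83.T5C

private theorem Tw_congr {p : ℕ} (ls : List ℕ) (hls : OkH 5 p ls) {G H : ℤ → ℤ → ℂ} (h : EqC G H) :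
    EqC (Tw 1 ls G) (Tw 1 ls H) := by
  induction ls with
  | nil => exact h
  | cons l ls ih =>
    exact (ih fun x hx => hls x (List.mem_cons_of_mem _ hx)).Tl
      (hls l List.mem_cons_self).1.pos 1

private theorem evLH_apply {p : ℕ} (G : ℤ → ℤ → ℂ) (ls : List ℕ) (hls : OkH 5 p ls) :
    evLH p G ls = evw 1 ls G := if_pos hls

private theorem evLH_apply' {p : ℕ} (G : ℤ → ℤ → ℂ) (ls : List ℕ) (hls : ¬ OkH 5 p ls) :
    evLH p G ls = 0 := if_neg hls

private theorem evLH_congr {p : ℕ} {G H : ℤ → ℤ → ℂ} (h : EqC G H) : evLH p G = evLH p H := by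
  funext ls
  by_cases hls : OkH 5 p ls
  · rw [evLH_apply _ _ hls, evLH_apply _ _ hls]
    exact (Tw_congr ls hls h).diff (Or.inl one_ne_zero) (Or.inr one_ne_zero)
  · rw [evLH_apply' _ _ hls, evLH_apply' _ _ hls]

/-- The symbols of level `5 p^2` with `W = -1`, `* = 1`. -/
private def PV (p : ℕ) : Submodule ℂ (ℤ → ℤ → ℂ) where
  carrier := {K | SymH p 0 2 K ∧
    EqC (act 0 (-1) (5 * (p : ℤ) ^ 2) 0 K) (-K) ∧ EqC (act (-1) 0 0 1 K) K}
  add_mem' := by
    intro K H h h'
    obtain ⟨a1, a2, a3⟩ := h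
    obtain ⟨b1, b2, b3⟩ := h'
    refine ⟨SymH.add a1 b1, ?_, a3.add b3⟩
    rw [neg_add]
    exact a2.add b2
  zero_mem' := by
    refine ⟨SymH.zero p 0 2, ?_, ?_⟩
    · exact ⟨0, fun p q _ => by simp [act]⟩
    · exact ⟨0, fun p q _ => by simp [act]⟩
  smul_mem' := by
    intro s K h
    obtain ⟨a1, a2, a3⟩ := h
    refine ⟨SymH.smul s a1, ?_, a3.smul s⟩
    rw [← smul_neg]
    exact a2.smul s

/-- Every symbol of level `5 p^2` has the values at words of one in `PV`. -/
private theorem proj_PV (hAvg : SHAvg) (hEv : SHEv) {p : ℕ} (hp : p.Prime) (hp2 : p ≠ 5)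
    (G : ℤ → ℤ → ℂ) (hG : SymH p 0 2 G) :
    ∃ K : ℤ → ℤ → ℂ, K ∈ PV p ∧ evLH p K = evLH p G := by
  set N : ℤ := 5 * (p : ℤ) ^ 2 with hN
  have hN0 : N ≠ 0 := by
    rw [hN]
    exact mul_ne_zero (by norm_num) (pow_ne_zero _ (by exact_mod_cast hp.ne_zero))
  have hW : ∀ G : ℤ → ℤ → ℂ, SymH p 0 2 G → SymH p 0 2 (act 0 (-1) N 0 G) ∧ SymH p 0 2 (act (-1) 0 0 1 G) := by
    intro G hG
    obtain ⟨-, -, -, h4, h5'⟩ := hAvg p hp hp2 2 G le_rfl hG
    exact ⟨h4, h5'⟩
  have eW : ∀ G : ℤ → ℤ → ℂ, SymH p 0 2 G → evLH p (act 0 (-1) N 0 G) = -evLH p G ∧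
      evLH p (act (-1) 0 0 1 G) = evLH p G := by
    intro G hG
    constructor
    · funext ls
      by_cases hls : OkH 5 p ls
      · rw [Pi.neg_apply, evLH_apply _ _ hls, evLH_apply _ _ hls]
        exact (hEv p hp hp2 ℂ _ 2 G hG ls hls).1
      · rw [Pi.neg_apply, evLH_apply' _ _ hls, evLH_apply' _ _ hls, neg_zero]
    · funext ls
      by_cases hls : OkH 5 p ls
      · rw [evLH_apply _ _ hls, evLH_apply _ _ hls]
        exact (hEv p hp hp2 ℂ _ 2 G hG ls hls).2
      · rw [evLH_apply' _ _ hls, evLH_apply' _ _ hls]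
  set H : ℤ → ℤ → ℂ := (1 / 2 : ℂ) • (G + (-1 : ℂ) • act 0 (-1) N 0 G) with hH
  have hHs : SymH p 0 2 H := SymH.smul _ (SymH.add hG (SymH.smul _ (hW G hG).1))
  have hHe : evLH p H = evLH p G := by
    rw [hH, map_smul, map_add, map_smul, (eW G hG).1]
    funext ls
    simp only [Pi.smul_apply, Pi.add_apply, Pi.neg_apply, smul_eq_mul]
    ring
  have hHW : ∀ x q : ℤ, (x ≠ 0 ∨ q ≠ 0) → H (0 * x + -1 * q) (N * x + 0 * q) = -H x q := by
    intro x q hpq
    simp only [hH, Pi.smul_apply, Pi.add_apply, act, smul_eq_mul]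
    have e := hG.1 (-N) x q (neg_ne_zero.2 hN0) hpq
    have e1 : 0 * (0 * x + -1 * q) + -1 * (N * x + 0 * q) = -N * x := by ring
    have e2 : N * (0 * x + -1 * q) + 0 * (N * x + 0 * q) = -N * q := by ring
    rw [e1, e2, e]
    ring
  set K : ℤ → ℤ → ℂ := (1 / 2 : ℂ) • (H + act (-1) 0 0 1 H) with hK
  have hKs : SymH p 0 2 K := SymH.smul _ (SymH.add hHs (hW H hHs).2)
  have hKe : evLH p K = evLH p H := by
    rw [hK, map_smul, map_add, (eW H hHs).2]
    funext ls
    simp only [Pi.smul_apply, Pi.add_apply, smul_eq_mul]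
    ring
  refine ⟨K, ⟨hKs, ?_, ?_⟩, hKe.trans hHe⟩
  · refine ⟨0, fun x q hpq => ?_⟩
    have h1 := hHW x q hpq
    have h2 := hHW (-x) q (by simpa using hpq)
    have e := hHs.1 (-1) (0 * -x + -1 * q) (N * -x + 0 * q) (by norm_num) (by
      rcases hpq with h | h
      · exact Or.inr (by simpa using ⟨hN0, h⟩)
      · exact Or.inl (by simpa using h))
    simp only [hK, Pi.smul_apply, Pi.add_apply, Pi.neg_apply, act, smul_eq_mul]
    have e1 : -1 * (0 * x + -1 * q) + 0 * (N * x + 0 * q) = -1 * (0 * -x + -1 * q) := by ring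
    have e2 : 0 * (0 * x + -1 * q) + 1 * (N * x + 0 * q) = -1 * (N * -x + 0 * q) := by ring
    have e3 : -1 * x + 0 * q = -x := by ring
    have e4 : 0 * x + 1 * q = q := by ring
    rw [e1, e2, e, h2, h1, e3, e4]
    ring
  · refine ⟨0, fun x q _ => ?_⟩
    simp only [hK, Pi.smul_apply, Pi.add_apply, act, smul_eq_mul]
    have e3 : -1 * x + 0 * q = -x := by ring
    have e4 : 0 * x + 1 * q = q := by ring
    have e5 : -1 * -x + 0 * q = x := by ring
    have e6 : 0 * -x + 1 * q = q := by ring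
    rw [e3, e4, e5, e6]
    ring

/-- **Module Core2G.** -/
theorem hCore2G : SHCore2G := by
  intro p D a hp hp2 dd hAvg hEv hBs hLB G hG hGW hGs hGe
  obtain ⟨L, hL, hLi⟩ := hLB 2 le_rfl
  have hD : DDE D dd 2 = D := by
    unfold DDE
    rw [Finset.Ico_self, Finset.sum_empty, Nat.add_zero]
  have hGP : G ∈ PV p := ⟨hG, hGW, hGs⟩
  have hGev : evLH p G = 0 := by
    funext ls
    by_cases hls : OkH 5 p ls
    · rw [evLH_apply _ _ hls]
      exact hGe ls hls
    · rw [evLH_apply' _ _ hls]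
      rfl
  -- the independent symbols
  have hK : ∀ k : Fin (DDE D dd 2), ∃ K : ℤ → ℤ → ℂ, K ∈ PV p ∧ evLH p K = evLH p (L k) :=
    fun k => proj_PV hAvg hEv hp hp2 (L k) (hL k)
  choose K hKP hKe using hK
  have hLi' : LinearIndependent ℂ (fun k => evLH p (K k)) := by
    have e : (fun k => evLH p (K k)) = fun k => evLH p (L k) := funext hKe
    rw [e]
    exact hLi
  have hdep : ¬ LinearIndependent ℂ
      (fun o : Option (Fin (DDE D dd 2)) => o.elim (a G) (fun k => a (K k))) := by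
    intro h
    have h1 := h.fintype_card_le_finrank
    rw [Fintype.card_option, Fintype.card_fin, Module.finrank_fin_fun, hD] at h1
    omega
  rw [Fintype.not_linearIndependent_iff] at hdep
  obtain ⟨c, hc, i, hi⟩ := hdep
  rw [Fintype.sum_option] at hc
  simp only [Option.elim_none, Option.elim_some] at hc
  obtain ⟨T, hT⟩ : ∃ T : ℤ → ℤ → ℂ, T = c none • G + ∑ k, c (some k) • K k := ⟨_, rfl⟩
  have hTP : T ∈ PV p := by
    rw [hT]
    exact (PV p).add_mem ((PV p).smul_mem _ hGP)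
      ((PV p).sum_mem fun k _ => (PV p).smul_mem _ (hKP k))
  have hTa : a T = 0 := by
    rw [hT, map_add, map_smul, map_sum]
    simp only [map_smul]
    exact hc
  have hTc : EqC T 0 := hBs T hTP.1 hTP.2.1 hTP.2.2 hTa
  have hTe : evLH p T = 0 := by
    rw [evLH_congr hTc]
    exact map_zero (evLH p)
  rw [hT, map_add, map_smul, hGev, smul_zero, zero_add, map_sum] at hTe
  simp only [map_smul] at hTe
  have hz : ∀ k, c (some k) = 0 := Fintype.linearIndependent_iff.1 hLi' (fun k => c (some k)) hTe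
  have hn : c none ≠ 0 := by
    intro h
    apply hi
    cases i with
    | none => exact h
    | some k => exact hz k
  have hs : ∑ k, c (some k) • a (K k) = 0 := Finset.sum_eq_zero fun k _ => by rw [hz k, zero_smul]
  rw [hs, add_zero] at hc
  exact hBs G hG hGW hGs ((smul_eq_zero.1 hc).resolve_left hn)

end Pool.Agent.Helper83.T5C
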