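import Pool.Agent.Helper83.T5C.StB

/-!
# Project TK (levels `5 p^n`), module EV: values at words under `W` and `*`
-/

set_option autoImplicit false

namespace Pool.Agent.Helper83.T5C

open Pool.Agent.Helper14.CV (Homog EqC act Tl StFar StFex)
open Pool.Agent.Helper28.WK (Tw evw)
open Pool.Agent.Helper28.TH (OkH)
open Pool.Agent.Helper28.T5
open Pool.Agent.Helper83.T5C

variable {R : Type} [AddCommGroup R]

private theorem tw_sym (hs : SHHkS) {p : ℕ} (hp : p.Prime) (hp3 : p ≠ 5) {n : ℕ} {G : ℤ → ℤ → R}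
    (hG : SymH p 0 n G) : ∀ ls : List ℕ, OkH 5 p ls → SymH p 0 n (Tw 1 ls G)
  | [], _ => hG
  | l :: ls, h => by
    have h1 := h l (List.mem_cons_self ..)
    have h2 : OkH 5 p ls := fun x hx => h x (List.mem_cons_of_mem _ hx)
    exact hs p hp hp3 R inferInstance n _ (tw_sym hs hp hp3 hG ls h2) l h1.1 h1.2.1 h1.2.2

private theorem tw_comm (hs : SHHkS) {p : ℕ} (hp : p.Prime) (hp3 : p ≠ 5) {n : ℕ} {a b c d : ℤ}
    (hC : ∀ G : ℤ → ℤ → R, SymH p 0 n G → ∀ l : ℕ, l.Prime → l ≠ p → l ≠ 5 →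
      EqC (Tl l 1 (act a b c d G)) (act a b c d (Tl l 1 G)))
    {G : ℤ → ℤ → R} (hG : SymH p 0 n G) : ∀ ls : List ℕ, OkH 5 p ls →
      EqC (Tw 1 ls (act a b c d G)) (act a b c d (Tw 1 ls G))
  | [], _ => Pool.Agent.Helper14.CV.EqC.refl _
  | l :: ls, h => by
    have h1 := h l (List.mem_cons_self ..)
    have h2 : OkH 5 p ls := fun x hx => h x (List.mem_cons_of_mem _ hx)
    have h3 := (tw_comm hs hp hp3 hC hG ls h2).Tl h1.1.pos 1
    exact h3.trans (hC _ (tw_sym hs hp hp3 hG ls h2) l h1.1 h1.2.1 h1.2.2)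

private theorem hom_neg {p n : ℕ} {H : ℤ → ℤ → R} (hH : SymH p 0 n H) : H (-1) 0 = H 1 0 := by
  have := hH.1 (-1) 1 0 (by norm_num) (Or.inl one_ne_zero)
  simpa using this

theorem hEv (h : SHHkS) (h' : SHHkW) : SHEv := by
  intro p hp hp3 R _ n G hG ls hls
  have hH := tw_sym h hp hp3 hG ls hls
  constructor
  · have hE := tw_comm (a := 0) (b := -1) (c := 5 * (p : ℤ) ^ n) (d := 0) h hp hp3
      (fun G hG l hl hlp hl3 => (h' p hp hp3 R inferInstance n G hG l hl hlp hl3).1) hG ls hls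
    have h1 := hE.diff (p := 1) (q := 0) (p' := 0) (q' := 1) (Or.inl one_ne_zero)
      (Or.inr one_ne_zero)
    have h2 : (Tw 1 ls G) 0 (5 * (p : ℤ) ^ n) = (Tw 1 ls G) 0 1 := by
      have hp0 : 5 * (p : ℤ) ^ n ≠ 0 := mul_ne_zero (by norm_num) (pow_ne_zero _ (by exact_mod_cast hp.ne_zero))
      have := hH.1 (5 * (p : ℤ) ^ n) 0 1 hp0 (Or.inr one_ne_zero)
      simpa using this
    unfold evw
    rw [h1]
    simp only [act, mul_zero, mul_one, zero_add, add_zero]
    rw [h2, hom_neg hH]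
    abel
  · have hE := tw_comm (a := -1) (b := 0) (c := 0) (d := 1) h hp hp3
      (fun G hG l hl hlp hl3 => (h' p hp hp3 R inferInstance n G hG l hl hlp hl3).2) hG ls hls
    have h1 := hE.diff (p := 1) (q := 0) (p' := 0) (q' := 1) (Or.inl one_ne_zero)
      (Or.inr one_ne_zero)
    unfold evw
    rw [h1]
    simp only [act, mul_zero, mul_one, zero_add, add_zero]
    rw [hom_neg hH]

end Pool.Agent.Helper83.T5C
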