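import Pool.Agent.Helper83.T5C.StB

/-!
# Project TK, module HKS: the Hecke operators preserve symbols of level `5 p^n`, also for the
matrices of determinant three
-/

set_option autoImplicit false

namespace Pool.Agent.Helper83.T5C

open Pool.Agent.Helper14.CV (Homog EqC act Tl StFar StFex)
open Pool.Agent.Helper28.WK (Tw evw)
open Pool.Agent.Helper93.TLE (DDE)
open Pool.Agent.Helper28.TH (OkH)
open Pool.Agent.Helper28.T5
open Pool.Agent.Helper83.T5C

private lemma homog_Tl (R : Type) [AddCommGroup R] (l : ℕ) (hl : l ≠ 0) (G : ℤ → ℤ → R) (hG : Homog G) :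
    Homog (Tl l 1 G) := by
  intro k p q hk hpq
  have hl' : (l : ℤ) ≠ 0 := by exact_mod_cast hl
  unfold Tl
  have e1 : G ((l : ℤ) * (k * p)) (k * q) = G ((l : ℤ) * p) q := by
    have h := hG k ((l : ℤ) * p) q hk (by
      rcases hpq with h | h
      · exact Or.inl (mul_ne_zero hl' h)
      · exact Or.inr h)
    rw [← h]
    congr 1
    ring
  rw [e1]
  congr 1
  refine Finset.sum_congr rfl fun j _ => ?_
  have h := hG k (p + 1 * (j : ℤ) * q) ((l : ℤ) * q) hk (by
    by_cases hq : q = 0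
    · left
      rcases hpq with h | h
      · rw [hq, mul_zero, add_zero]
        exact h
      · exact absurd hq h
    · exact Or.inr (mul_ne_zero hl' hq))
  rw [← h]
  congr 1 <;> ring

/-- the standard representatives -/
private def Sd (l : ℕ) : Fin (l + 1) → Matrix (Fin 2) (Fin 2) ℤ :=
  Fin.lastCases (motive := fun _ => Matrix (Fin 2) (Fin 2) ℤ) !![(l : ℤ), 0; 0, 1]
    (fun j : Fin l => !![1, ((j : ℕ) : ℤ); 0, (l : ℤ)])

private lemma Sd_last (l : ℕ) : Sd l (Fin.last l) = !![(l : ℤ), 0; 0, 1] := by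
  unfold Sd
  rw [Fin.lastCases_last]

private lemma Sd_cast (l : ℕ) (j : Fin l) : Sd l j.castSucc = !![1, ((j : ℕ) : ℤ); 0, (l : ℤ)] := by
  unfold Sd
  rw [Fin.lastCases_castSucc]

private lemma Sd_det (l : ℕ) (P : Fin (l + 1)) : (Sd l P).det = l := by
  refine Fin.lastCases ?_ (fun j => ?_) P
  · rw [Sd_last, Matrix.det_fin_two_of]
    ring
  · rw [Sd_cast, Matrix.det_fin_two_of]
    ring

/-- the standard representatives are inequivalent -/
private lemma Sd_ne {l : ℕ} (hl : l.Prime) (P P' : Fin (l + 1)) (hne : P ≠ P') :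
    ¬ ∀ i j, (l : ℤ) ∣ (Sd l P * (Sd l P').adjugate) i j := by
  have hl1 : ¬ ((l : ℤ) ∣ 1) := by
    intro h
    have h1 := Int.natCast_dvd_natCast.1 (by exact_mod_cast h : ((l : ℕ) : ℤ) ∣ ((1 : ℕ) : ℤ))
    exact hl.one_lt.ne' (Nat.dvd_one.1 h1)
  revert hne
  refine Fin.lastCases ?_ (fun j => ?_) P <;> refine Fin.lastCases ?_ (fun j' => ?_) P'
  · intro h
    exact absurd rfl h
  · intro _ h
    have h1 := h 1 1
    rw [Sd_last, Sd_cast, Matrix.adjugate_fin_two_of] at h1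
    simp only [Matrix.mul_apply, Fin.sum_univ_two, Matrix.of_apply, Matrix.cons_val', Matrix.cons_val_zero,
      Matrix.cons_val_one, Matrix.cons_val_fin_one] at h1
    apply hl1
    simpa using h1
  · intro _ h
    have h1 := h 0 0
    rw [Sd_last, Sd_cast, Matrix.adjugate_fin_two_of] at h1
    simp only [Matrix.mul_apply, Fin.sum_univ_two, Matrix.of_apply, Matrix.cons_val', Matrix.cons_val_zero,
      Matrix.cons_val_one, Matrix.cons_val_fin_one] at h1
    apply hl1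
    simpa using h1
  · intro hne h
    have h1 := h 0 1
    rw [Sd_cast, Sd_cast, Matrix.adjugate_fin_two_of] at h1
    simp only [Matrix.mul_apply, Fin.sum_univ_two, Matrix.of_apply, Matrix.cons_val', Matrix.cons_val_zero,
      Matrix.cons_val_one, Matrix.cons_val_fin_one] at h1
    have e : (1 : ℤ) * -((j' : ℕ) : ℤ) + ((j : ℕ) : ℤ) * 1 = ((j : ℕ) : ℤ) - ((j' : ℕ) : ℤ) := by ring
    rw [e] at h1
    apply hne
    congr 1
    apply Fin.ext
    have hj := j.isLt
    have hj' := j'.isLt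
    have h2 : ((j : ℕ) : ℤ) - ((j' : ℕ) : ℤ) = 0 := by
      apply Int.eq_zero_of_abs_lt_dvd h1
      rw [abs_lt]
      constructor <;> omega
    omega

private lemma nz {A B C D x y : ℤ} (hd : A * D - B * C ≠ 0) (h : x ≠ 0 ∨ y ≠ 0) :
    A * x + B * y ≠ 0 ∨ C * x + D * y ≠ 0 := by
  by_contra hcon
  push Not at hcon
  obtain ⟨h1, h2⟩ := hcon
  have e1 : (A * D - B * C) * x = 0 := by linear_combination D * h1 - B * h2
  have e2 : (A * D - B * C) * y = 0 := by linear_combination A * h2 - C * h1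
  rcases h with h | h
  · exact h ((mul_eq_zero.1 e1).resolve_left hd)
  · exact h ((mul_eq_zero.1 e2).resolve_left hd)

/-- `∑_P G(S_P Γ v) = (T_l G)(Γ v)` -/
private lemma sum_act {R : Type} [AddCommGroup R] (l : ℕ) (G : ℤ → ℤ → R) (a b c d x y : ℤ) :
    ∑ P, G ((Sd l P * !![a, b; c, d]) 0 0 * x + (Sd l P * !![a, b; c, d]) 0 1 * y)
      ((Sd l P * !![a, b; c, d]) 1 0 * x + (Sd l P * !![a, b; c, d]) 1 1 * y) =
      act a b c d (Tl l 1 G) x y := by
  rw [Fin.sum_univ_castSucc]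
  simp only [Sd_last, Sd_cast, Matrix.mul_apply, Fin.sum_univ_two, Matrix.of_apply, Matrix.cons_val',
    Matrix.cons_val_zero, Matrix.cons_val_one, Matrix.cons_val_fin_one]
  unfold act Tl
  rw [Finset.sum_range, add_comm]
  congr 1
  · congr 1 <;> ring
  · refine Finset.sum_congr rfl fun j _ => ?_
    congr 1 <;> ring

/-- case one -/
private lemma case1 (hHk : SHHk) (p : ℕ) (hp : p.Prime) (hp2 : p ≠ 5) (R : Type) [inst : AddCommGroup R]
    (n l : ℕ) (G : ℤ → ℤ → R)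
    (hl : l.Prime) (hlp : l ≠ p) (hl2 : l ≠ 5) (hG : SymH p 0 n G) (a b c d : ℤ)
    (hdet : a * d - b * c = 1) (hc : 5 * (p : ℤ) ^ n ∣ c) :
    EqC (act a b c d (Tl l 1 G)) (Tl l 1 G) := by
  have hΓ : (!![a, b; c, d] : Matrix (Fin 2) (Fin 2) ℤ).det = 1 := by
    rw [Matrix.det_fin_two_of]; exact hdet
  have key := hHk p hp hp2 R inst n l G hl hlp hl2 hG (fun P => Sd l P * !![a, b; c, d])
    (fun P => by rw [Matrix.det_mul, Sd_det, hΓ, mul_one])
    (fun P => by
      refine Fin.lastCases ?_ (fun j => ?_) P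
      · rw [Sd_last]
        simpa [Matrix.mul_apply, Fin.sum_univ_two] using hc
      · rw [Sd_cast]
        simpa [Matrix.mul_apply, Fin.sum_univ_two] using Dvd.dvd.mul_left hc (l : ℤ))
    (fun P P' hne h => by
      refine Sd_ne hl P P' hne ?_
      have e : Sd l P * !![a, b; c, d] * (Sd l P' * !![a, b; c, d]).adjugate =
          Sd l P * (Sd l P').adjugate := by
        rw [Matrix.adjugate_mul_distrib, Matrix.mul_assoc, ← Matrix.mul_assoc !![a, b; c, d],
          Matrix.mul_adjugate, hΓ, one_smul, Matrix.one_mul]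
      rw [e] at h
      exact h)
  have e : (fun x y => ∑ P, G ((Sd l P * !![a, b; c, d]) 0 0 * x + (Sd l P * !![a, b; c, d]) 0 1 * y)
      ((Sd l P * !![a, b; c, d]) 1 0 * x + (Sd l P * !![a, b; c, d]) 1 1 * y)) =
      act a b c d (Tl l 1 G) := by
    funext x y
    exact sum_act l G a b c d x y
  rw [e] at key
  exact key

/-- representatives of the Hecke sum conjugated by a matrix of determinant three -/
private def dl (l : ℕ) (a b c d : ℤ) : Fin (l + 1) → Matrix (Fin 2) (Fin 2) ℤ :=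
  Fin.lastCases (motive := fun _ => Matrix (Fin 2) (Fin 2) ℤ)
    !![5 * (l : ℤ) * a * d - b * c, b * d * ((l : ℤ) - 1); 5 * a * c * (1 - (l : ℤ)), 5 * a * d - (l : ℤ) * b * c]
    (fun j : Fin l => !![5 * a * d + 5 * ((j : ℕ) : ℤ) * c * d - (l : ℤ) * b * c,
        d * (b + 5 * ((j : ℕ) : ℤ) * d - (l : ℤ) * b);
      5 * c * ((l : ℤ) * a - a - ((j : ℕ) : ℤ) * c),
        5 * (l : ℤ) * a * d - c * (b + 5 * ((j : ℕ) : ℤ) * d)])

private lemma dl_last (l : ℕ) (a b c d : ℤ) : dl l a b c d (Fin.last l) =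
    !![5 * (l : ℤ) * a * d - b * c, b * d * ((l : ℤ) - 1); 5 * a * c * (1 - (l : ℤ)), 5 * a * d - (l : ℤ) * b * c] := by
  unfold dl
  rw [Fin.lastCases_last]

private lemma dl_cast (l : ℕ) (a b c d : ℤ) (j : Fin l) : dl l a b c d j.castSucc =
    !![5 * a * d + 5 * ((j : ℕ) : ℤ) * c * d - (l : ℤ) * b * c,
        d * (b + 5 * ((j : ℕ) : ℤ) * d - (l : ℤ) * b);
      5 * c * ((l : ℤ) * a - a - ((j : ℕ) : ℤ) * c),
        5 * (l : ℤ) * a * d - c * (b + 5 * ((j : ℕ) : ℤ) * d)] := by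
  unfold dl
  rw [Fin.lastCases_castSucc]

private lemma two_dl (l : ℕ) (a b c d : ℤ) (P : Fin (l + 1)) :
    (5 : ℤ) • dl l a b c d P =
      !![5 * d, -b; -(5 * c), 5 * a] * (Sd l P * !![5 * a, b; 5 * c, 5 * d]) := by
  refine Fin.lastCases ?_ (fun j => ?_) P
  · rw [dl_last, Sd_last]
    ext i k
    fin_cases i <;> fin_cases k <;>
      simp [Matrix.mul_apply, Fin.sum_univ_two] <;> ring
  · rw [dl_cast, Sd_cast]
    ext i k
    fin_cases i <;> fin_cases k <;>
      simp [Matrix.mul_apply, Fin.sum_univ_two] <;> ring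

private lemma detΓ (a b c d : ℤ) (hdet : 5 * a * d - b * c = 1) :
    (!![5 * a, b; 5 * c, 5 * d] : Matrix (Fin 2) (Fin 2) ℤ).det = 5 := by
  rw [Matrix.det_fin_two_of]
  linear_combination 5 * hdet

private lemma detΓ' (a b c d : ℤ) (hdet : 5 * a * d - b * c = 1) :
    (!![5 * d, -b; -(5 * c), 5 * a] : Matrix (Fin 2) (Fin 2) ℤ).det = 5 := by
  rw [Matrix.det_fin_two_of]
  linear_combination 5 * hdet

private lemma dl_det (l : ℕ) (a b c d : ℤ) (hdet : 5 * a * d - b * c = 1) (P : Fin (l + 1)) :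
    (dl l a b c d P).det = l := by
  have h := congrArg Matrix.det (two_dl l a b c d P)
  rw [Matrix.det_smul, Matrix.det_mul, Matrix.det_mul, detΓ a b c d hdet, detΓ' a b c d hdet, Sd_det,
    Fintype.card_fin] at h
  linarith

private lemma dl_low (l n p : ℕ) (a b c d : ℤ) (hc : (p : ℤ) ^ n ∣ c) (P : Fin (l + 1)) :
    5 * (p : ℤ) ^ n ∣ dl l a b c d P 1 0 := by
  obtain ⟨e, rfl⟩ := hc
  refine Fin.lastCases ?_ (fun j => ?_) P
  · rw [dl_last]
    simp only [Matrix.of_apply, Matrix.cons_val', Matrix.cons_val_zero, Matrix.cons_val_one,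
      Matrix.cons_val_fin_one]
    exact ⟨a * e * (1 - (l : ℤ)), by ring⟩
  · rw [dl_cast]
    simp only [Matrix.of_apply, Matrix.cons_val', Matrix.cons_val_zero, Matrix.cons_val_one,
      Matrix.cons_val_fin_one]
    exact ⟨e * ((l : ℤ) * a - a - ((j : ℕ) : ℤ) * ((p : ℤ) ^ n * e)), by ring⟩

private lemma dvd_mat {l : ℤ} {A B C : Matrix (Fin 2) (Fin 2) ℤ} (h : ∀ i j, l ∣ B i j) (i j : Fin 2) :
    l ∣ (A * B * C) i j := by
  simp only [Matrix.mul_apply, Fin.sum_univ_two]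
  refine dvd_add (Dvd.dvd.mul_right (dvd_add ?_ ?_) _) (Dvd.dvd.mul_right (dvd_add ?_ ?_) _) <;>
    exact Dvd.dvd.mul_left (h _ _) _

private lemma dl_ne {l : ℕ} (hl : l.Prime) (hl2 : l ≠ 5) (a b c d : ℤ) (hdet : 5 * a * d - b * c = 1)
    (P P' : Fin (l + 1)) (hne : P ≠ P') :
    ¬ ∀ i j, (l : ℤ) ∣ (dl l a b c d P * (dl l a b c d P').adjugate) i j := by
  intro h
  refine Sd_ne hl P P' hne ?_
  have hlpz : Prime (l : ℤ) := Nat.prime_iff_prime_int.1 hl
  have hl2' : ¬ (l : ℤ) ∣ 5 := by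
    intro h4
    have h5 : l ∣ 5 := by exact_mod_cast h4
    exact hl2 ((Nat.prime_dvd_prime_iff_eq hl (by norm_num)).1 h5)
  obtain ⟨Γ, hΓ⟩ : ∃ Γ : Matrix (Fin 2) (Fin 2) ℤ, Γ = !![5 * a, b; 5 * c, 5 * d] := ⟨_, rfl⟩
  obtain ⟨Γ', hΓ'⟩ : ∃ Γ' : Matrix (Fin 2) (Fin 2) ℤ, Γ' = !![5 * d, -b; -(5 * c), 5 * a] := ⟨_, rfl⟩
  have t := two_dl l a b c d P
  have t' := two_dl l a b c d P'
  rw [← hΓ, ← hΓ'] at t t'
  have a1 : Γ.adjugate = Γ' := by
    rw [hΓ, hΓ', Matrix.adjugate_fin_two_of]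
  have a2 : Γ'.adjugate = Γ := by
    rw [hΓ, hΓ', Matrix.adjugate_fin_two_of]
    simp
  have m1 : Γ * Γ' = (5 : ℤ) • (1 : Matrix (Fin 2) (Fin 2) ℤ) := by
    rw [← a1, Matrix.mul_adjugate, hΓ, detΓ a b c d hdet]
  have t'' : (5 : ℤ) • (dl l a b c d P').adjugate = Γ' * (Sd l P').adjugate * Γ := by
    have h1 := congrArg Matrix.adjugate t'
    rw [Matrix.adjugate_smul, Matrix.adjugate_mul_distrib, Matrix.adjugate_mul_distrib, a1, a2,
      Fintype.card_fin] at h1
    simpa using h1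
  have e1 : Γ * (dl l a b c d P * (dl l a b c d P').adjugate) * Γ' =
      (5 : ℤ) • (Sd l P * (Sd l P').adjugate) := by
    have h4 : (25 : ℤ) • (Γ * (dl l a b c d P * (dl l a b c d P').adjugate) * Γ') =
        (125 : ℤ) • (Sd l P * (Sd l P').adjugate) := by
      calc (25 : ℤ) • (Γ * (dl l a b c d P * (dl l a b c d P').adjugate) * Γ') =
            Γ * (((5 : ℤ) • dl l a b c d P) * ((5 : ℤ) • (dl l a b c d P').adjugate)) * Γ' := by
            rw [Matrix.smul_mul, Matrix.mul_smul, Matrix.mul_smul, Matrix.mul_smul, Matrix.smul_mul,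
              Matrix.smul_mul, smul_smul]
            norm_num
        _ = Γ * ((Γ' * (Sd l P * Γ)) * (Γ' * (Sd l P').adjugate * Γ)) * Γ' := by rw [t, t'']
        _ = (Γ * Γ') * Sd l P * (Γ * Γ') * (Sd l P').adjugate * (Γ * Γ') := by
            simp only [Matrix.mul_assoc]
        _ = (125 : ℤ) • (Sd l P * (Sd l P').adjugate) := by
            rw [m1]
            simp only [Matrix.smul_mul, Matrix.mul_smul, Matrix.one_mul, Matrix.mul_one, smul_smul]
            norm_num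
    ext i j
    have h5 := congrFun (congrFun h4 i) j
    simp only [Matrix.smul_apply, smul_eq_mul] at h5 ⊢
    linarith
  intro i j
  have h6 := dvd_mat (A := Γ) (C := Γ') h i j
  rw [e1, Matrix.smul_apply, smul_eq_mul] at h6
  exact (hlpz.dvd_or_dvd h6).resolve_left hl2'

/-- case two -/
private lemma case2 (hHk : SHHk) (p : ℕ) (hp : p.Prime) (hp2 : p ≠ 5) (R : Type) [inst : AddCommGroup R]
    (n l : ℕ) (G : ℤ → ℤ → R)
    (hl : l.Prime) (hlp : l ≠ p) (hl2 : l ≠ 5) (hG : SymH p 0 n G) (a b c d : ℤ)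
    (hdet : 5 * a * d - b * c = 1) (hc : (p : ℤ) ^ n ∣ c) :
    EqC (act (5 * a) b (5 * c) (5 * d) (Tl l 1 G)) (Tl l 1 G) := by
  have hl0 : (l : ℤ) ≠ 0 := by exact_mod_cast hl.ne_zero
  have key := hHk p hp hp2 R inst n l G hl hlp hl2 hG (dl l a b c d)
    (dl_det l a b c d hdet) (dl_low l n p a b c d hc) (dl_ne hl hl2 a b c d hdet)
  obtain ⟨C, hC⟩ := hG.2 (5 * d) (-b) (-(5 * c)) (5 * a)
    (Or.inr ⟨by linear_combination 5 * hdet, ⟨d, rfl⟩, ⟨-c, by ring⟩, ⟨a, rfl⟩⟩)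
    (by rw [pow_zero]; exact one_dvd _) (by
      obtain ⟨e, rfl⟩ := hc
      exact ⟨-(5 * e), by ring⟩)
  have key2 : EqC (fun x y => ∑ P, G (dl l a b c d P 0 0 * x + dl l a b c d P 0 1 * y)
      (dl l a b c d P 1 0 * x + dl l a b c d P 1 1 * y)) (act (5 * a) b (5 * c) (5 * d) (Tl l 1 G)) := by
    refine ⟨(l + 1) • C, fun x y hxy => ?_⟩
    rw [← sum_act]
    have hterm : ∀ P, G (dl l a b c d P 0 0 * x + dl l a b c d P 0 1 * y)
        (dl l a b c d P 1 0 * x + dl l a b c d P 1 1 * y) =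
        G ((Sd l P * !![5 * a, b; 5 * c, 5 * d]) 0 0 * x + (Sd l P * !![5 * a, b; 5 * c, 5 * d]) 0 1 * y)
          ((Sd l P * !![5 * a, b; 5 * c, 5 * d]) 1 0 * x + (Sd l P * !![5 * a, b; 5 * c, 5 * d]) 1 1 * y) +
        C := by
      intro P
      obtain ⟨S, hS⟩ : ∃ S : Matrix (Fin 2) (Fin 2) ℤ, S = Sd l P * !![5 * a, b; 5 * c, 5 * d] := ⟨_, rfl⟩
      have t := two_dl l a b c d P
      rw [← hS] at t ⊢
      have hSd : S 0 0 * S 1 1 - S 0 1 * S 1 0 ≠ 0 := by
        rw [← Matrix.det_fin_two, hS, Matrix.det_mul, Sd_det, detΓ a b c d hdet]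
        exact mul_ne_zero hl0 (by norm_num)
      have hDd : dl l a b c d P 0 0 * dl l a b c d P 1 1 - dl l a b c d P 0 1 * dl l a b c d P 1 0 ≠ 0 := by
        rw [← Matrix.det_fin_two, dl_det l a b c d hdet]
        exact hl0
      have h1 := hG.1 5 _ _ (by norm_num) (nz hDd hxy)
      have h2 := hC _ _ (nz hSd hxy)
      have t00 := congrFun (congrFun t 0) 0
      have t01 := congrFun (congrFun t 0) 1
      have t10 := congrFun (congrFun t 1) 0
      have t11 := congrFun (congrFun t 1) 1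
      simp only [Matrix.smul_apply, smul_eq_mul, Matrix.mul_apply, Fin.sum_univ_two, Matrix.of_apply,
        Matrix.cons_val', Matrix.cons_val_zero, Matrix.cons_val_one, Matrix.cons_val_fin_one]
        at t00 t01 t10 t11
      rw [← h1, ← h2]
      unfold act
      congr 1
      · linear_combination x * t00 + y * t01
      · linear_combination x * t10 + y * t11
    have h9 := Finset.sum_congr (s₁ := Finset.univ) rfl fun P _ => hterm P
    rw [Finset.sum_add_distrib, Finset.sum_const, Finset.card_univ, Fintype.card_fin] at h9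
    exact h9
  exact key2.symm.trans key

/-- MODULE HKS -/
theorem hHkS (hHk : SHHk) : SHHkS := by
  intro p hp hp2 R inst n G hG l hl hlp hl2
  refine ⟨homog_Tl R l hl.ne_zero G hG.1, ?_⟩
  intro a b c d hH _ hc
  rcases hH with ⟨hdet, hc2⟩ | ⟨hdet, ⟨a', rfl⟩, ⟨c', rfl⟩, ⟨d', rfl⟩⟩
  · refine case1 hHk p hp hp2 R n l G hl hlp hl2 hG a b c d hdet ?_
    have hcop : IsCoprime (5 : ℤ) ((p : ℤ) ^ n) := by
      refine IsCoprime.pow_right ?_
      have h1 : Nat.Coprime 5 p := (Nat.coprime_primes (by norm_num) hp).2 (Ne.symm hp2)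
      exact_mod_cast Nat.isCoprime_iff_coprime.2 h1
    exact hcop.mul_dvd hc2 hc
  · refine case2 hHk p hp hp2 R n l G hl hlp hl2 hG a' b c' d' ?_ ?_
    · linarith
    · have hcop : IsCoprime ((p : ℤ) ^ n) (5 : ℤ) := by
        refine IsCoprime.pow_left ?_
        have h1 : Nat.Coprime p 5 := (Nat.coprime_primes hp (by norm_num)).2 hp2
        exact_mod_cast Nat.isCoprime_iff_coprime.2 h1
      exact hcop.dvd_of_dvd_mul_left hc

end Pool.Agent.Helper83.T5C
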