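import Pool.Agent.Helper83.T5C.StB

/-!
# Module HKW of project TK: the Hecke operators commute with the Fricke involution and with `*`
-/

set_option autoImplicit false

namespace Pool.Agent.Helper83.T5C

open Pool.Agent.Helper14.CV (Homog EqC act Tl StFar StFex EqC.refl EqC.trans EqC.act EqC.of_eq)
open Pool.Agent.Helper28.WK (Tw evw)
open Pool.Agent.Helper93.TLE (DDE)
open Pool.Agent.Helper28.TH (OkH)
open Pool.Agent.Helper28.T5
open Pool.Agent.Helper83.T5C

/-- the representatives `W std_P W⁻¹` -/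
private def dW (p n l : ℕ) (P : Fin (l + 1)) : Matrix (Fin 2) (Fin 2) ℤ :=
  if (P : ℕ) < l then !![(l : ℤ), 0; -(5 * (p : ℤ) ^ n * ((P : ℕ) : ℤ)), 1] else !![1, 0; 0, (l : ℤ)]

private theorem dW_lt (p n l : ℕ) (P : Fin (l + 1)) (h : (P : ℕ) < l) :
    dW p n l P = !![(l : ℤ), 0; -(5 * (p : ℤ) ^ n * ((P : ℕ) : ℤ)), 1] := if_pos h

private theorem dW_ge (p n l : ℕ) (P : Fin (l + 1)) (h : ¬ (P : ℕ) < l) :
    dW p n l P = !![1, 0; 0, (l : ℤ)] := if_neg h

private theorem tlW {p : ℕ} (hp : p.Prime) (hp2 : p ≠ 5) (hHk : SHHk) (R : Type) [AddCommGroup R]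
    (n l : ℕ) (G : ℤ → ℤ → R) (hl : l.Prime) (h2 : l ≠ p) (hl2' : l ≠ 5) (hG : SymH p 0 n G) :
    EqC (Tl l 1 (act 0 (-1) (5 * (p : ℤ) ^ n) 0 G)) (act 0 (-1) (5 * (p : ℤ) ^ n) 0 (Tl l 1 G)) := by
  have hlz : Prime (l : ℤ) := Nat.prime_iff_prime_int.mp hl
  have hl1 : ¬ (l : ℤ) ∣ 1 := by
    intro h
    exact hlz.not_isUnit (isUnit_of_dvd_one h)
  have hlt : ¬ (l : ℤ) ∣ 5 := by
    intro h
    have h4 : l ∣ 5 := by exact_mod_cast h
    rcases (Nat.dvd_prime (by norm_num)).1 h4 with h5 | h5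
    · exact hl.one_lt.ne' h5
    · exact hl2' h5
  have hp0 : 5 * (p : ℤ) ^ n ≠ 0 := mul_ne_zero (by norm_num) (pow_ne_zero n (by exact_mod_cast hp.ne_zero))
  have hl2 : ¬ (l : ℤ) ∣ 5 * (p : ℤ) ^ n := by
    intro h
    have h3 := hlz.dvd_of_dvd_pow ((hlz.dvd_or_dvd h).resolve_left hlt)
    have h4 : l ∣ p := by exact_mod_cast h3
    rcases (Nat.dvd_prime hp).1 h4 with h5 | h5
    · exact hl.one_lt.ne' h5
    · exact h2 h5
  have h1 := hHk p hp hp2 R inferInstance n l G hl h2 hl2' hG (dW p n l) ?_ ?_ ?_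
  · have h3 := h1.act (a := 0) (b := -1) (c := 5 * (p : ℤ) ^ n) (d := 0) (by simpa using hp0)
    refine EqC.trans ?_ h3
    refine EqC.of_eq fun x y _ => ?_
    unfold Tl act
    beta_reduce
    rw [Fin.sum_univ_castSucc, Finset.sum_range, add_comm]
    congr 1
    · refine Finset.sum_congr rfl fun i _ => ?_
      rw [dW_lt p n l _ (by simp)]
      simp only [Matrix.cons_val', Matrix.cons_val_zero, Matrix.cons_val_one, Matrix.of_apply,
        Matrix.cons_val_fin_one, Fin.val_castSucc]
      congr 1 <;> ring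
    · rw [dW_ge p n l _ (by simp)]
      simp only [Matrix.cons_val', Matrix.cons_val_zero, Matrix.cons_val_one, Matrix.of_apply,
        Matrix.cons_val_fin_one]
      congr 1 <;> ring
  · intro P
    by_cases h : (P : ℕ) < l
    · rw [dW_lt p n l P h, Matrix.det_fin_two_of]
      ring
    · rw [dW_ge p n l P h, Matrix.det_fin_two_of]
      ring
  · intro P
    by_cases h : (P : ℕ) < l
    · rw [dW_lt p n l P h]
      show 5 * (p : ℤ) ^ n ∣ -(5 * (p : ℤ) ^ n * ((P : ℕ) : ℤ))
      exact (dvd_neg).2 (dvd_mul_right _ _)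
    · rw [dW_ge p n l P h]
      show 5 * (p : ℤ) ^ n ∣ 0
      exact dvd_zero _
  · intro P P' hP hd
    by_cases h : (P : ℕ) < l
    · by_cases h' : (P' : ℕ) < l
      · rw [dW_lt p n l P h, dW_lt p n l P' h', Matrix.adjugate_fin_two_of] at hd
        have h3 := hd 1 0
        simp only [Matrix.mul_apply, Fin.sum_univ_two, Matrix.cons_val', Matrix.cons_val_zero,
          Matrix.cons_val_one, Matrix.of_apply, Matrix.cons_val_fin_one] at h3
        have h4 : (l : ℤ) ∣ 5 * (p : ℤ) ^ n * (((P' : ℕ) : ℤ) - ((P : ℕ) : ℤ)) := by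
          convert h3 using 1
          ring
        rcases hlz.dvd_or_dvd h4 with h5 | h5
        · exact hl2 h5
        · have h6 : (((P' : ℕ) : ℤ) - ((P : ℕ) : ℤ)) = 0 := by
            apply Int.eq_zero_of_abs_lt_dvd h5
            rw [abs_lt]
            omega
          apply hP
          apply Fin.ext
          omega
      · rw [dW_lt p n l P h, dW_ge p n l P' h', Matrix.adjugate_fin_two_of] at hd
        have h3 := hd 1 1
        simp only [Matrix.mul_apply, Fin.sum_univ_two, Matrix.cons_val', Matrix.cons_val_zero,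
          Matrix.cons_val_one, Matrix.of_apply, Matrix.cons_val_fin_one] at h3
        apply hl1
        convert h3 using 1
        ring
    · by_cases h' : (P' : ℕ) < l
      · rw [dW_ge p n l P h, dW_lt p n l P' h', Matrix.adjugate_fin_two_of] at hd
        have h3 := hd 0 0
        simp only [Matrix.mul_apply, Fin.sum_univ_two, Matrix.cons_val', Matrix.cons_val_zero,
          Matrix.cons_val_one, Matrix.of_apply, Matrix.cons_val_fin_one] at h3
        apply hl1
        convert h3 using 1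
        ring
      · apply hP
        apply Fin.ext
        have e1 := P.isLt
        have e2 := P'.isLt
        omega

/-- the representatives `* std_P *⁻¹` -/
private def dT (l : ℕ) (P : Fin (l + 1)) : Matrix (Fin 2) (Fin 2) ℤ :=
  if (P : ℕ) < l then !![1, -((P : ℕ) : ℤ); 0, (l : ℤ)] else !![(l : ℤ), 0; 0, 1]

private theorem dT_lt (l : ℕ) (P : Fin (l + 1)) (h : (P : ℕ) < l) :
    dT l P = !![1, -((P : ℕ) : ℤ); 0, (l : ℤ)] := if_pos h

private theorem dT_ge (l : ℕ) (P : Fin (l + 1)) (h : ¬ (P : ℕ) < l) :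
    dT l P = !![(l : ℤ), 0; 0, 1] := if_neg h

private theorem tlT {p : ℕ} (hp : p.Prime) (hp2 : p ≠ 5) (hHk : SHHk) (R : Type) [AddCommGroup R]
    (n l : ℕ) (G : ℤ → ℤ → R) (hl : l.Prime) (h2 : l ≠ p) (hl2' : l ≠ 5) (hG : SymH p 0 n G) :
    EqC (Tl l 1 (act (-1) 0 0 1 G)) (act (-1) 0 0 1 (Tl l 1 G)) := by
  have hlz : Prime (l : ℤ) := Nat.prime_iff_prime_int.mp hl
  have hl1 : ¬ (l : ℤ) ∣ 1 := by
    intro h
    exact hlz.not_isUnit (isUnit_of_dvd_one h)
  have hlt : ¬ (l : ℤ) ∣ 5 := by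
    intro h
    have h4 : l ∣ 5 := by exact_mod_cast h
    rcases (Nat.dvd_prime (by norm_num)).1 h4 with h5 | h5
    · exact hl.one_lt.ne' h5
    · exact hl2' h5
  have h1 := hHk p hp hp2 R inferInstance n l G hl h2 hl2' hG (dT l) ?_ ?_ ?_
  · have h3 := h1.act (a := -1) (b := 0) (c := 0) (d := 1) (by simp)
    refine EqC.trans ?_ h3
    refine EqC.of_eq fun x y _ => ?_
    unfold Tl act
    beta_reduce
    rw [Fin.sum_univ_castSucc, Finset.sum_range, add_comm]
    congr 1
    · refine Finset.sum_congr rfl fun i _ => ?_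
      rw [dT_lt l _ (by simp)]
      simp only [Matrix.cons_val', Matrix.cons_val_zero, Matrix.cons_val_one, Matrix.of_apply,
        Matrix.cons_val_fin_one, Fin.val_castSucc]
      congr 1 <;> ring
    · rw [dT_ge l _ (by simp)]
      simp only [Matrix.cons_val', Matrix.cons_val_zero, Matrix.cons_val_one, Matrix.of_apply,
        Matrix.cons_val_fin_one]
      congr 1 <;> ring
  · intro P
    by_cases h : (P : ℕ) < l
    · rw [dT_lt l P h, Matrix.det_fin_two_of]
      ring
    · rw [dT_ge l P h, Matrix.det_fin_two_of]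
      ring
  · intro P
    by_cases h : (P : ℕ) < l
    · rw [dT_lt l P h]
      show 5 * (p : ℤ) ^ n ∣ 0
      exact dvd_zero _
    · rw [dT_ge l P h]
      show 5 * (p : ℤ) ^ n ∣ 0
      exact dvd_zero _
  · intro P P' hP hd
    by_cases h : (P : ℕ) < l
    · by_cases h' : (P' : ℕ) < l
      · rw [dT_lt l P h, dT_lt l P' h', Matrix.adjugate_fin_two_of] at hd
        have h3 := hd 0 1
        simp only [Matrix.mul_apply, Fin.sum_univ_two, Matrix.cons_val', Matrix.cons_val_zero,
          Matrix.cons_val_one, Matrix.of_apply, Matrix.cons_val_fin_one] at h3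
        have h5 : (l : ℤ) ∣ ((P' : ℕ) : ℤ) - ((P : ℕ) : ℤ) := by
          convert h3 using 1
          ring
        have h6 : (((P' : ℕ) : ℤ) - ((P : ℕ) : ℤ)) = 0 := by
          apply Int.eq_zero_of_abs_lt_dvd h5
          rw [abs_lt]
          omega
        apply hP
        apply Fin.ext
        omega
      · rw [dT_lt l P h, dT_ge l P' h', Matrix.adjugate_fin_two_of] at hd
        have h3 := hd 0 0
        simp only [Matrix.mul_apply, Fin.sum_univ_two, Matrix.cons_val', Matrix.cons_val_zero,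
          Matrix.cons_val_one, Matrix.of_apply, Matrix.cons_val_fin_one] at h3
        apply hl1
        convert h3 using 1
        ring
    · by_cases h' : (P' : ℕ) < l
      · rw [dT_ge l P h, dT_lt l P' h', Matrix.adjugate_fin_two_of] at hd
        have h3 := hd 1 1
        simp only [Matrix.mul_apply, Fin.sum_univ_two, Matrix.cons_val', Matrix.cons_val_zero,
          Matrix.cons_val_one, Matrix.of_apply, Matrix.cons_val_fin_one] at h3
        apply hl1
        convert h3 using 1
        ring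
      · apply hP
        apply Fin.ext
        have e1 := P.isLt
        have e2 := P'.isLt
        omega

/-- Module HkW. -/
theorem hHkW (hHk : SHHk) : SHHkW := fun _ hp hp2 R i n G hG l hl h2 h3 =>
  ⟨@tlW _ hp hp2 hHk R i n l G hl h2 h3 hG, @tlT _ hp hp2 hHk R i n l G hl h2 h3 hG⟩

end Pool.Agent.Helper83.T5C
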