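import Pool.Agent.Helper83.T5C.StB

/-!
# Project TK, module MON: monotonicity of the level
-/

set_option autoImplicit false

namespace Pool.Agent.Helper83.T5C

open Pool.Agent.Helper14.CV (Homog EqC act Tl StFar StFex)
open Pool.Agent.Helper28.WK (Tw evw)
open Pool.Agent.Helper93.TLE (DDE)
open Pool.Agent.Helper28.TH (OkH)
open Pool.Agent.Helper28.T5
open Pool.Agent.Helper83.T5C

/-- MON: a symbol of level `m` is one of level `n ≥ m`. -/
theorem hMon : SHMon := by
  intro p R _ m n G hmn hG
  exact ⟨hG.1, fun a b c d hd hb hc => hG.2 a b c d hd hb (dvd_trans (pow_dvd_pow _ hmn) hc)⟩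

end Pool.Agent.Helper83.T5C
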