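import Pool.Agent.Helper83.T5C.M_Hk
import Pool.Agent.Helper83.T5C.M_HkS
import Pool.Agent.Helper83.T5C.M_HkW
import Pool.Agent.Helper83.T5C.M_Ev
import Pool.Agent.Helper83.T5C.M_Avg
import Pool.Agent.Helper83.T5C.M_Mon
import Pool.Agent.Helper83.T5C.M_Com
import Pool.Agent.Helper83.T5C.M_B3a
import Pool.Agent.Helper83.T5C.M_CoreOf
import Pool.Agent.Helper83.T5C.M_B3bG
import Pool.Agent.Helper83.T5C.M_Core2G

/-!
# Levels `5 p^n`: the chain, without hypotheses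
-/

set_option autoImplicit false

namespace Pool.Agent.Helper83.T5C

open Pool.Agent.Helper14.CV (Homog EqC act Tl)
open Pool.Agent.Helper28.WK (Tw evw)
open Pool.Agent.Helper28.TH (OkH)
open Pool.Agent.Helper28.T5

theorem hkQ : SHHk := hHk

theorem hksQ : SHHkS := hHkS hkQ

theorem hkwQ : SHHkW := hHkW hkQ

theorem avgQ : SHAvg := hAvg

theorem evQ : SHEv := hEv hksQ hkwQ

theorem b3aQ : SHB3a := hB3a avgQ hMon hCom evQ

theorem b3bQ {p D : ℕ} {a : (ℤ → ℤ → ℂ) →ₗ[ℂ] (Fin D → ℂ)} (hp : p.Prime) (hq : p ≠ 5)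
    (h : BsG p D a) : B3bH p D := hB3bG p D a hp hq avgQ evQ h

/-- The core for levels `5 p^n`, `n ≥ 3`. -/
theorem coreQ {p D : ℕ} {a : (ℤ → ℤ → ℂ) →ₗ[ℂ] (Fin D → ℂ)} {dd : ℕ → ℕ} (hp : p.Prime)
    (hq : p ≠ 5) (h : BsG p D a) (ub : UBH p dd) (lb : LBH p D dd) : CoreH p :=
  hCoreOf b3aQ p D dd hp hq (b3bQ hp hq h) ub lb

/-- The core for the level `5 p^2`. -/
theorem core2Q {p D : ℕ} {a : (ℤ → ℤ → ℂ) →ₗ[ℂ] (Fin D → ℂ)} {dd : ℕ → ℕ} (hp : p.Prime)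
    (hq : p ≠ 5) (h : BsG p D a) (lb : LBH p D dd) : CoreV p 2 :=
  hCore2G p D a hp hq dd avgQ evQ h lb

/-- The core for the level `5`: the matrix of `W` is in the group. -/
theorem core0Q (p : ℕ) : CoreV p 0 := by
  intro G hS hW _ _
  obtain ⟨c, hc⟩ := hS.2 0 (-1) 5 0 (Or.inr (by norm_num)) (by simp) (by simp)
  obtain ⟨e, he⟩ := hW
  rw [pow_zero, mul_one] at he
  refine ⟨(e - c) / 2, fun x y hxy => ?_⟩
  have h1 := hc x y hxy
  have h2 := he x y hxy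
  simp only [Pi.neg_apply] at h2
  rw [Pi.zero_apply, Pi.zero_apply]
  rw [h1] at h2
  linear_combination h2 / 2

end Pool.Agent.Helper83.T5C
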