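import Pool.Agent.Helper83.T5C.M_Far

/-!
# Levels `5·3^n`: a symbol of level `45` is determined by finitely many values

The list of steps has been made by a program.
-/

set_option autoImplicit false

namespace Pool.Agent.Helper83.T5C

open Pool.Agent.Helper14.CV (Homog EqC act Tl StFar StFex)
open Pool.Agent.Helper28.WK (Tw evw)
open Pool.Agent.Helper28.TH (OkH)
open Pool.Agent.Helper28.T5

/-- A symbol `K` of level `45` with `K∘W ≈ -K`, `K∘* ≈ K` and equal values at the given cusps is constant. -/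
def Bs3 : Prop := ∀ K : ℤ → ℤ → ℂ, SymH 3 0 2 K → EqC (act 0 (-1) (5 * (3 : ℤ) ^ 2) 0 K) (-K) →
  EqC (act (-1) 0 0 1 K) K → K 0 1 = K 1 0 → K 1 3 = K 1 0 → EqC K 0

/-- The representatives of determinant one. -/
private def L1 : List (ℤ × ℤ × ℤ × ℤ) :=
  [(1, 0, 0, 1),
    (1, 0, -5, 1),
    (1, 0, 5, 1),
    (1, 1, 0, 1),
    (-4, -1, 5, 1),
    (1, -1, 0, 1),
    (-4, 1, -5, 1)]

/-- The representatives of determinant `5`. -/
private def L2 : List (ℤ × ℤ × ℤ × ℤ) :=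
  [(0, 1, -5, 0),
    (0, -1, 5, 5),
    (0, 1, -5, 5),
    (-5, 1, -5, 0),
    (5, 1, -5, 0)]

/-- The representatives of the second kind. -/
private def L3 : List (ℤ × ℤ × ℤ × ℤ) :=
  [(0, -1, 1, 3),
    (0, 1, -1, 2),
    (0, 1, -1, 7),
    (1, 0, -3, 1),
    (1, 0, 7, 1),
    (1, 0, 2, 1),
    (-4, -1, 9, 2),
    (-1, -4, 1, 3),
    (-1, -1, 2, 1),
    (4, -1, -3, 1),
    (1, -4, -2, 9),
    (1, -1, -1, 2)]

set_option maxRecDepth 100000 in
private lemma cls : ∀ p q r s : ZMod 3, p * s - q * r = 1 → ∃ t ∈ L1 ++ L2,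
    q * (t.1 : ZMod 3) - p * (t.2.1 : ZMod 3) = 0 ∧
      r * (t.2.2.2 : ZMod 3) - s * (t.2.2.1 : ZMod 3) = 0 := by decide

set_option maxRecDepth 100000 in
private lemma cls2 : ∀ p q r s : ZMod 3, p * s - q * r = 1 → ∃ t ∈ L3,
    q * (t.1 : ZMod 3) - p * (t.2.1 : ZMod 3) = 0 ∧
      r * (t.2.2.2 : ZMod 3) - s * (t.2.2.1 : ZMod 3) = 0 := by decide

private lemma dvdp {n : ℤ} : (3 : ℤ) ∣ n ↔ (n : ZMod 3) = 0 :=
  (ZMod.intCast_zmod_eq_zero_iff_dvd n 3).symm

/-- The symmetries of `F(x, y) = K(x, 3y)`. -/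
private structure Inv (F : ℤ → ℤ → ℂ) : Prop where
  hom : Homog F
  gam : ∀ a b c d : ℤ, HTy a (3 * b) (3 * c) d → ∀ x y z w : ℤ, (x ≠ 0 ∨ y ≠ 0) →
    (z ≠ 0 ∨ w ≠ 0) → F (a * x + 3 * b * y) (3 * c * x + d * y) -
      F (a * z + 3 * b * w) (3 * c * z + d * w) = F x y - F z w
  st : ∀ x y z w : ℤ, (x ≠ 0 ∨ y ≠ 0) → (z ≠ 0 ∨ w ≠ 0) →
    F (-x) y - F (-z) w = F x y - F z w
  sw : ∀ x y z w : ℤ, (x ≠ 0 ∨ y ≠ 0) → (z ≠ 0 ∨ w ≠ 0) →
    F (-y) (5 * x) - F (-w) (5 * z) = -(F x y - F z w)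

private theorem nz {a b c d e : ℤ} (h : a * d - b * c = e) (he : e ≠ 0) :
    (a ≠ 0 ∨ c ≠ 0) ∧ (b ≠ 0 ∨ d ≠ 0) := by
  constructor
  · by_contra hcon
    push Not at hcon
    rw [hcon.1, hcon.2] at h
    apply he
    rw [← h]
    ring
  · by_contra hcon
    push Not at hcon
    rw [hcon.1, hcon.2] at h
    apply he
    rw [← h]
    ring

private theorem one {F : ℤ → ℤ → ℂ} (h : Inv F) {r1 r2 r3 r4 : ℤ} (hr : HTy r1 r2 r3 r4)
    (h0 : F r1 r3 = F r2 r4)
    {p q r s : ℤ} (hd : p * s - q * r = 1) (hpar : (5 : ℤ) ∣ r) (e1 : (3 : ℤ) ∣ q * r1 - p * r2)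
    (e2 : (3 : ℤ) ∣ r * r4 - s * r3) : F p r = F q s := by
  obtain ⟨b, hb⟩ := e1
  obtain ⟨c, hc⟩ := e2
  have hpr := (nz hd one_ne_zero).1
  have hqs := (nz hd one_ne_zero).2
  have hprod : 3 * b * (3 * c) = (q * r1 - p * r2) * (r * r4 - s * r3) := by rw [hb, hc]
  rcases hr with ⟨hr, hr3⟩ | ⟨hr, hr1, hr3, hr4⟩
  · obtain ⟨n1, n2⟩ := nz hr one_ne_zero
    have hT : HTy (p * r4 - q * r3) (3 * b) (3 * c) (s * r1 - r * r2) := by
      refine Or.inl ⟨?_, ?_⟩
      · rw [hprod]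
        linear_combination (p * s - q * r) * hr + hd
      · rw [← hc]
        exact dvd_sub (Dvd.dvd.mul_right hpar _) (Dvd.dvd.mul_left hr3 _)
    have e := h.gam _ b c _ hT r1 r3 r2 r4 n1 n2
    have g1 : (p * r4 - q * r3) * r1 + 3 * b * r3 = p := by
      linear_combination p * hr - r3 * hb
    have g2 : 3 * c * r1 + (s * r1 - r * r2) * r3 = r := by
      linear_combination r * hr - r1 * hc
    have g3 : (p * r4 - q * r3) * r2 + 3 * b * r4 = q := by
      linear_combination q * hr - r4 * hb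
    have g4 : 3 * c * r2 + (s * r1 - r * r2) * r4 = s := by
      linear_combination s * hr - r2 * hc
    rw [g1, g2, g3, g4, h0, sub_self] at e
    exact sub_eq_zero.1 e
  · obtain ⟨n1, n2⟩ := nz hr (by norm_num)
    have hT : HTy (p * r4 - q * r3) (3 * b) (3 * c) (s * r1 - r * r2) := by
      refine Or.inr ⟨?_, ?_, ?_, ?_⟩
      · rw [hprod]
        linear_combination (p * s - q * r) * hr + 5 * hd
      · exact dvd_sub (Dvd.dvd.mul_left hr4 _) (Dvd.dvd.mul_left hr3 _)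
      · rw [← hc]
        exact dvd_sub (Dvd.dvd.mul_right hpar _) (Dvd.dvd.mul_left hr3 _)
      · exact dvd_sub (Dvd.dvd.mul_left hr1 _) (Dvd.dvd.mul_right hpar _)
    have e := h.gam _ b c _ hT r1 r3 r2 r4 n1 n2
    have g1 : (p * r4 - q * r3) * r1 + 3 * b * r3 = 5 * p := by
      linear_combination p * hr - r3 * hb
    have g2 : 3 * c * r1 + (s * r1 - r * r2) * r3 = 5 * r := by
      linear_combination r * hr - r1 * hc
    have g3 : (p * r4 - q * r3) * r2 + 3 * b * r4 = 5 * q := by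
      linear_combination q * hr - r4 * hb
    have g4 : 3 * c * r2 + (s * r1 - r * r2) * r4 = 5 * s := by
      linear_combination s * hr - r2 * hc
    rw [g1, g2, g3, g4, h0, sub_self, h.hom 5 p r (by norm_num) hpr,
      h.hom 5 q s (by norm_num) hqs] at e
    exact sub_eq_zero.1 e

private theorem two {F : ℤ → ℤ → ℂ} (h : Inv F) {r1 r2 r3 r4 : ℤ} (hr : r1 * r4 - r2 * r3 = 1)
    (hr3 : (5 : ℤ) ∣ r3 - 2 * r4) (h0 : F r1 r3 = F r2 r4)
    {p q r s : ℤ} (hd : p * s - q * r = 1) (hpar : (5 : ℤ) ∣ r - 2 * s)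
    (e1 : (3 : ℤ) ∣ q * r1 - p * r2) (e2 : (3 : ℤ) ∣ r * r4 - s * r3) : F p r = F q s := by
  obtain ⟨b, hb⟩ := e1
  obtain ⟨c, hc⟩ := e2
  have hprod : 3 * b * (3 * c) = (q * r1 - p * r2) * (r * r4 - s * r3) := by rw [hb, hc]
  obtain ⟨n1, n2⟩ := nz hr one_ne_zero
  have hT : HTy (p * r4 - q * r3) (3 * b) (3 * c) (s * r1 - r * r2) := by
    refine Or.inl ⟨?_, ?_⟩
    · rw [hprod]
      linear_combination (p * s - q * r) * hr + hd
    · rw [← hc]
      have e : r * r4 - s * r3 = r4 * (r - 2 * s) - s * (r3 - 2 * r4) := by ring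
      rw [e]
      exact dvd_sub (Dvd.dvd.mul_left hpar _) (Dvd.dvd.mul_left hr3 _)
  have e := h.gam _ b c _ hT r1 r3 r2 r4 n1 n2
  have g1 : (p * r4 - q * r3) * r1 + 3 * b * r3 = p := by
    linear_combination p * hr - r3 * hb
  have g2 : 3 * c * r1 + (s * r1 - r * r2) * r3 = r := by
    linear_combination r * hr - r1 * hc
  have g3 : (p * r4 - q * r3) * r2 + 3 * b * r4 = q := by
    linear_combination q * hr - r4 * hb
  have g4 : 3 * c * r2 + (s * r1 - r * r2) * r4 = s := by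
    linear_combination s * hr - r2 * hc
  rw [g1, g2, g3, g4, h0, sub_self] at e
  exact sub_eq_zero.1 e

private theorem main {F : ℤ → ℤ → ℂ} (h : Inv F) {κ : ℂ} (k0 : F 1 0 = κ) (b0 : F 0 1 = κ) (k1 : F 1 1 = κ) (hfar : StFar) : EqC F 0 := by
  -- homogeneity
  have hs : ∀ (k x y : ℤ), k ≠ 0 → (x ≠ 0 ∨ y ≠ 0) → F (k * x) (k * y) = F x y := h.hom
  have st : ∀ x y : ℤ, (x ≠ 0 ∨ y ≠ 0) → F (-x) y = F x y := by
    intro x y hv
    have e := h.st x y 1 0 hv (by norm_num)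
    have e0 := hs (-1) 1 0 (by norm_num) (by norm_num)
    norm_num at e0
    rw [e0] at e
    linear_combination e
  have sw : ∀ x y : ℤ, (x ≠ 0 ∨ y ≠ 0) → F (-y) (5 * x) - κ = -(F x y - κ) := by
    intro x y hv
    have e := h.sw x y 1 0 hv (by norm_num)
    have e2 := hs 5 0 1 (by norm_num) (by norm_num)
    norm_num at e e2
    rw [e2, k0, b0] at e
    linear_combination e
  have cl : ∀ x y : ℤ, (x ≠ 0 ∨ y ≠ 0) → F x y = κ → ∀ k X Y : ℤ, k ≠ 0 →
      ((X = k * x ∧ Y = k * y) ∨ (X = -(k * x) ∧ Y = k * y)) → F X Y = κ := by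
    rintro x y hv hx k X Y hk (⟨rfl, rfl⟩ | ⟨rfl, rfl⟩)
    · rw [hs k x y hk hv, hx]
    · have e : -(k * x) = k * (-x) := by ring
      rw [e, hs k (-x) y hk (by rcases hv with h | h; exacts [Or.inl (neg_ne_zero.2 h), Or.inr h]),
        st x y hv, hx]
  have sk : ∀ x y X Y k : ℤ, ((x ≠ 0 ∨ y ≠ 0) ∧ (X ≠ 0 ∨ Y ≠ 0) ∧ k ≠ 0 ∧
      ((-y = k * X ∧ 5 * x = k * Y) ∨ (-y = -(k * X) ∧ 5 * x = k * Y))) →
      F X Y = 2 * κ - F x y := by
    rintro x y X Y k ⟨hv, hV, hk, h1 | h1⟩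
    · have e := sw x y hv
      rw [h1.1, h1.2, hs k X Y hk hV] at e
      linear_combination e
    · have e := sw x y hv
      have e1 : -(k * X) = k * (-X) := by ring
      rw [h1.1, h1.2, e1, hs k (-X) Y hk
        (by rcases hV with h | h; exacts [Or.inl (neg_ne_zero.2 h), Or.inr h]), st X Y hV] at e
      linear_combination e
  have wk : ∀ x y X Y k : ℤ, ((x ≠ 0 ∨ y ≠ 0) ∧ (X ≠ 0 ∨ Y ≠ 0) ∧ k ≠ 0 ∧
      ((-y = k * X ∧ 5 * x = k * Y) ∨ (-y = -(k * X) ∧ 5 * x = k * Y))) → F x y = κ →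
      F X Y = κ := by
    intro x y X Y k hc hx
    linear_combination sk x y X Y k hc - hx
  have stn : ∀ x y X : ℤ, (X = -x ∧ (x ≠ 0 ∨ y ≠ 0)) → F X y = F x y := by
    rintro x y X ⟨rfl, hv⟩
    exact st x y hv
  have G : ∀ a b c d : ℤ, HTy a (3 * b) (3 * c) d → ∀ x y z w X Y Z W k l : ℤ,
      ((x ≠ 0 ∨ y ≠ 0) ∧ (z ≠ 0 ∨ w ≠ 0) ∧ (X ≠ 0 ∨ Y ≠ 0) ∧ (Z ≠ 0 ∨ W ≠ 0) ∧ k ≠ 0 ∧ l ≠ 0 ∧
        a * x + 3 * b * y = k * X ∧ 3 * c * x + d * y = k * Y ∧
        a * z + 3 * b * w = l * Z ∧ 3 * c * z + d * w = l * W) →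
      F X Y - F Z W = F x y - F z w := by
    rintro a b c d hT x y z w X Y Z W k l ⟨n1, n2, n3, n4, hk, hl, q1, q2, q3, q4⟩
    have e := h.gam a b c d hT x y z w n1 n2
    rw [q1, q2, q3, q4, hs k X Y hk n3, hs l Z W hl n4] at e
    exact e
  have c1_5 : F 1 5 = κ := wk (1) (1) (1) (5) (1) (by decide) k1
  have e1 : F (4) (5) = F (1) (1) := by
    linear_combination 1 / 2 * (G (25) (-7) (10) (-25) (Or.inr (by decide)) (1) (1) (4) (5) (4) (5) (1) (1) (1) (-5) (by decide))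
  have c4_5 : F 4 5 = κ := e1.trans k1
  have e3 : F (1) (1) = F (4) (1) := by
    linear_combination (G (1) (-1) (0) (1) (Or.inl (by decide)) (4) (1) (1) (0) (1) (1) (1) (0) (1) (1) (by decide))
  have c4_1 : F 4 1 = κ := (e3.symm.trans k1)
  have e4 : F (1) (2) = F (2) (5) := by
    linear_combination 1 / 2 * (G (20) (-3) (15) (-20) (Or.inr (by decide)) (2) (5) (1) (2) (1) (2) (2) (5) (-5) (1) (by decide))
  have c2_5 : F 2 5 = κ := (by linear_combination (sk (2) (5) (1) (2) (5) (by decide) - e4) / 2)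
  have e2 : F (1) (0) = F (1) (3) := by
    linear_combination (G (55) (-6) (-5) (5) (Or.inr (by decide)) (1) (3) (2) (5) (1) (0) (-4) (1) (1) (-5) (by decide)) + (cl 4 1 (by decide) c4_1 (1) (-4) (1) (by decide) (by decide)) - c2_5
  have c1_3 : F 1 3 = κ := (e2.symm.trans k0)
  have e5 : F (2) (5) = F (1) (2) := by
    linear_combination 1 / 2 * (G (20) (-3) (15) (-20) (Or.inr (by decide)) (1) (2) (2) (5) (2) (5) (1) (2) (1) (-5) (by decide))
  have c1_2 : F 1 2 = κ := (by linear_combination (sk (1) (2) (2) (5) (1) (by decide) - e5) / 2)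
  have e6 : F (1) (7) = F (1) (5) := by
    linear_combination 1 / 2 * (G (20) (-1) (45) (-20) (Or.inr (by decide)) (1) (5) (1) (7) (1) (7) (1) (5) (5) (-1) (by decide))
  have c1_7 : F 1 7 = κ := e6.trans c1_5
  have e7 : F (4) (9) = F (1) (0) := by
    linear_combination 1 / 2 * (G (20) (-3) (15) (-20) (Or.inr (by decide)) (1) (0) (4) (9) (4) (9) (1) (0) (5) (-1) (by decide))
  have c4_9 : F 4 9 = κ := e7.trans k0
  have e8 : F (4) (3) = F (1) (0) := by
    linear_combination 1 / 2 * (G (20) (-9) (5) (-20) (Or.inr (by decide)) (1) (0) (4) (3) (4) (3) (1) (0) (5) (-1) (by decide))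
  have c4_3 : F 4 3 = κ := e8.trans k0
  have hL : ∀ t ∈ L1 ++ L2, HTy t.1 t.2.1 t.2.2.1 t.2.2.2 ∧ F t.1 t.2.2.1 = κ ∧
      F t.2.1 t.2.2.2 = κ := by
    intro t ht
    simp only [L1, L2, List.cons_append, List.nil_append, List.mem_cons, List.not_mem_nil,
      or_false] at ht
    rcases ht with rfl | rfl | rfl | rfl | rfl | rfl | rfl | rfl | rfl | rfl | rfl | rfl
    · exact ⟨Or.inl (by decide), cl 1 0 (by decide) k0 (1) _ _ (by decide) (by decide),
        cl 0 1 (by decide) b0 (1) _ _ (by decide) (by decide)⟩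
    · exact ⟨Or.inl (by decide), cl 1 5 (by decide) c1_5 (-1) _ _ (by decide) (by decide),
        cl 0 1 (by decide) b0 (1) _ _ (by decide) (by decide)⟩
    · exact ⟨Or.inl (by decide), cl 1 5 (by decide) c1_5 (1) _ _ (by decide) (by decide),
        cl 0 1 (by decide) b0 (1) _ _ (by decide) (by decide)⟩
    · exact ⟨Or.inl (by decide), cl 1 0 (by decide) k0 (1) _ _ (by decide) (by decide),
        cl 1 1 (by decide) k1 (1) _ _ (by decide) (by decide)⟩
    · exact ⟨Or.inl (by decide), cl 4 5 (by decide) c4_5 (1) _ _ (by decide) (by decide),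
        cl 1 1 (by decide) k1 (1) _ _ (by decide) (by decide)⟩
    · exact ⟨Or.inl (by decide), cl 1 0 (by decide) k0 (1) _ _ (by decide) (by decide),
        cl 1 1 (by decide) k1 (1) _ _ (by decide) (by decide)⟩
    · exact ⟨Or.inl (by decide), cl 4 5 (by decide) c4_5 (-1) _ _ (by decide) (by decide),
        cl 1 1 (by decide) k1 (1) _ _ (by decide) (by decide)⟩
    · exact ⟨Or.inr (by decide), cl 0 1 (by decide) b0 (-5) _ _ (by decide) (by decide),
        cl 1 0 (by decide) k0 (1) _ _ (by decide) (by decide)⟩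
    · exact ⟨Or.inr (by decide), cl 0 1 (by decide) b0 (5) _ _ (by decide) (by decide),
        cl 1 5 (by decide) c1_5 (1) _ _ (by decide) (by decide)⟩
    · exact ⟨Or.inr (by decide), cl 0 1 (by decide) b0 (-5) _ _ (by decide) (by decide),
        cl 1 5 (by decide) c1_5 (1) _ _ (by decide) (by decide)⟩
    · exact ⟨Or.inr (by decide), cl 1 1 (by decide) k1 (-5) _ _ (by decide) (by decide),
        cl 1 0 (by decide) k0 (1) _ _ (by decide) (by decide)⟩
    · exact ⟨Or.inr (by decide), cl 1 1 (by decide) k1 (-5) _ _ (by decide) (by decide),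
        cl 1 0 (by decide) k0 (1) _ _ (by decide) (by decide)⟩
  have hL' : ∀ t ∈ L3, (t.1 * t.2.2.2 - t.2.1 * t.2.2.1 = 1 ∧ (5 : ℤ) ∣ t.2.2.1 - 2 * t.2.2.2) ∧
      F t.1 t.2.2.1 = κ ∧ F t.2.1 t.2.2.2 = κ := by
    intro t ht
    simp only [L3, List.mem_cons, List.not_mem_nil, or_false] at ht
    rcases ht with rfl | rfl | rfl | rfl | rfl | rfl | rfl | rfl | rfl | rfl | rfl | rfl
    · exact ⟨by decide, cl 0 1 (by decide) b0 (1) _ _ (by decide) (by decide),
        cl 1 3 (by decide) c1_3 (1) _ _ (by decide) (by decide)⟩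
    · exact ⟨by decide, cl 0 1 (by decide) b0 (-1) _ _ (by decide) (by decide),
        cl 1 2 (by decide) c1_2 (1) _ _ (by decide) (by decide)⟩
    · exact ⟨by decide, cl 0 1 (by decide) b0 (-1) _ _ (by decide) (by decide),
        cl 1 7 (by decide) c1_7 (1) _ _ (by decide) (by decide)⟩
    · exact ⟨by decide, cl 1 3 (by decide) c1_3 (-1) _ _ (by decide) (by decide),
        cl 0 1 (by decide) b0 (1) _ _ (by decide) (by decide)⟩
    · exact ⟨by decide, cl 1 7 (by decide) c1_7 (1) _ _ (by decide) (by decide),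
        cl 0 1 (by decide) b0 (1) _ _ (by decide) (by decide)⟩
    · exact ⟨by decide, cl 1 2 (by decide) c1_2 (1) _ _ (by decide) (by decide),
        cl 0 1 (by decide) b0 (1) _ _ (by decide) (by decide)⟩
    · exact ⟨by decide, cl 4 9 (by decide) c4_9 (1) _ _ (by decide) (by decide),
        cl 1 2 (by decide) c1_2 (1) _ _ (by decide) (by decide)⟩
    · exact ⟨by decide, cl 1 1 (by decide) k1 (1) _ _ (by decide) (by decide),
        cl 4 3 (by decide) c4_3 (1) _ _ (by decide) (by decide)⟩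
    · exact ⟨by decide, cl 1 2 (by decide) c1_2 (1) _ _ (by decide) (by decide),
        cl 1 1 (by decide) k1 (1) _ _ (by decide) (by decide)⟩
    · exact ⟨by decide, cl 4 3 (by decide) c4_3 (-1) _ _ (by decide) (by decide),
        cl 1 1 (by decide) k1 (1) _ _ (by decide) (by decide)⟩
    · exact ⟨by decide, cl 1 2 (by decide) c1_2 (-1) _ _ (by decide) (by decide),
        cl 4 9 (by decide) c4_9 (1) _ _ (by decide) (by decide)⟩
    · exact ⟨by decide, cl 1 1 (by decide) k1 (-1) _ _ (by decide) (by decide),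
        cl 1 2 (by decide) c1_2 (1) _ _ (by decide) (by decide)⟩
  have hc : ∀ p q r s : ℤ, p * s - q * r = 1 → (p : ZMod 3) * s - q * r = 1 := by
    intro p q r s hd
    have h' := congrArg (Int.cast : ℤ → ZMod 3) hd
    push_cast at h'
    exact h'
  refine farQ hfar F h.hom st (fun p q r s hd hpar => ?_) (fun p q r s hd hpar => ?_)
  · obtain ⟨t, htL, e1, e2⟩ := cls _ _ _ _ (hc p q r s hd)
    obtain ⟨f1, f2, f3⟩ := hL t htL
    exact one h f1 (f2.trans f3.symm) hd hpar (dvdp.2 (by push_cast; exact e1))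
      (dvdp.2 (by push_cast; exact e2))
  · obtain ⟨t, htL, e1, e2⟩ := cls2 _ _ _ _ (hc p q r s hd)
    obtain ⟨⟨f1, f1'⟩, f2, f3⟩ := hL' t htL
    exact two h f1 f1' (f2.trans f3.symm) hd hpar (dvdp.2 (by push_cast; exact e1))
      (dvdp.2 (by push_cast; exact e2))

private theorem five {x y : ℤ} (h : x ≠ 0 ∨ y ≠ 0) : x ≠ 0 ∨ 3 * y ≠ 0 := by
  rcases h with h | h
  · exact Or.inl h
  · exact Or.inr (by omega)

/-- BS. -/
theorem hBs3 (hfar : StFar) : Bs3 := by
  intro K hS hW hst h0 h1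
  obtain ⟨hH, hG⟩ := hS
  obtain ⟨F, hF⟩ : ∃ F : ℤ → ℤ → ℂ, ∀ x y, F x y = K x (3 * y) := ⟨fun x y => K x (3 * y),
    fun _ _ => rfl⟩
  have hI : Inv F := by
    refine ⟨?_, ?_, ?_, ?_⟩
    · intro k p q hk hpq
      rw [hF, hF]
      have := hH k p (3 * q) hk (five hpq)
      rw [← this]
      congr 1; ring
    · intro a b c d hd x y z w hv hw
      have hT : HTy a b (9 * c) d := by
        rcases hd with ⟨h1, h2⟩ | ⟨h1, h2, h3, h4⟩
        · exact Or.inl ⟨by linear_combination h1, by omega⟩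
        · exact Or.inr ⟨by linear_combination h1, h2, by omega, h4⟩
      have e := (hG a b (9 * c) d hT (by simp) ⟨c, by norm_num⟩).diff (five hv) (five hw)
      simp only [act] at e
      rw [hF, hF, hF, hF, ← e]
      congr 2 <;> ring
    · intro x y z w hv hw
      have e := hst.diff (five hv) (five hw)
      simp only [act] at e
      rw [hF, hF, hF, hF, ← e]
      congr 2 <;> ring
    · intro x y z w hv hw
      have e := hW.diff (five hv) (five hw)
      simp only [act, Pi.neg_apply] at e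
      have q1 : ∀ x y : ℤ, (x ≠ 0 ∨ y ≠ 0) →
          K (0 * x + -1 * (3 * y)) (5 * (3 : ℤ) ^ 2 * x + 0 * (3 * y)) = F (-y) (5 * x) := by
        intro x y hv
        rw [hF]
        have := hH 3 (-y) (3 * (5 * x)) (by norm_num) (by omega)
        rw [← this]
        congr 1 <;> ring
      rw [q1 x y hv, q1 z w hw] at e
      rw [e, hF, hF]
      ring
  have hc : EqC F 0 := by
    refine main hI (κ := K 1 0) ?_ ?_ ?_ hfar
    · rw [hF]; norm_num
    · rw [hF, ← h0]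
      have := hH 3 0 1 (by norm_num) (by norm_num)
      norm_num at this ⊢
      exact this
    · rw [hF, ← h1]; norm_num
  obtain ⟨c, hc⟩ := hc
  refine ⟨c, fun p q hpq => ?_⟩
  have e1 := hc (3 * p) q (by omega)
  rw [hF] at e1
  have e2 := hH 3 p q (by norm_num) hpq
  rw [← e2, e1]
  simp

/-- The coordinates at level `45`. -/
def a3Q : (ℤ → ℤ → ℂ) →ₗ[ℂ] (Fin 2 → ℂ) where
  toFun K := ![K 0 1 - K 1 0, K 1 3 - K 1 0]
  map_add' K L := by
    funext i
    fin_cases i <;> simp <;> ring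
  map_smul' s K := by
    funext i
    fin_cases i <;> simp <;> ring

theorem bsG3Q : BsG 3 2 a3Q := by
  intro K hS hW hst ha
  have e0 := congrFun ha 0
  have e1 := congrFun ha 1
  simp only [a3Q, LinearMap.coe_mk, AddHom.coe_mk, Matrix.cons_val_zero, Matrix.cons_val_one,
    Matrix.cons_val, Pi.zero_apply] at e0 e1
  exact hBs3 Pool.Agent.Helper38.CV.hFar K hS (by rwa [Nat.cast_ofNat] at hW) hst (sub_eq_zero.1 e0) (sub_eq_zero.1 e1)

end Pool.Agent.Helper83.T5C
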