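import Pool.Agent.Helper83.T5C.Asm
import Pool.Agent.Helper14.CV.StB
import Pool.Agent.Helper38.CV.M_Far

/-!
# Levels `5 p^n`: two kinds of edges of the Farey graph suffice
-/

set_option autoImplicit false

namespace Pool.Agent.Helper83.T5C

open Pool.Agent.Helper14.CV (Homog EqC act Tl StFar StFex)

/-- Equal values at the ends of all paths `{g∞, g0}`, `g = (p q; r s)` of determinant one with `5 ∣ r` or `r ≡ 2s` modulo `5`, suffice for even functions. -/
theorem farQ (hfar : StFar) {R : Type} [AddCommGroup R] (F : ℤ → ℤ → R) (hom : Homog F)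
    (st : ∀ x y : ℤ, (x ≠ 0 ∨ y ≠ 0) → F (-x) y = F x y)
    (h0 : ∀ p q r s : ℤ, p * s - q * r = 1 → (5 : ℤ) ∣ r → F p r = F q s)
    (h2 : ∀ p q r s : ℤ, p * s - q * r = 1 → (5 : ℤ) ∣ r - 2 * s → F p r = F q s) : EqC F 0 := by
  refine hfar R _ F hom fun p q r s hd => ?_
  have hne : p ≠ 0 ∨ r ≠ 0 := by
    by_contra hcon
    push Not at hcon
    rw [hcon.1, hcon.2] at hd
    simp at hd
  have hne' : q ≠ 0 ∨ s ≠ 0 := by
    by_contra hcon
    push Not at hcon
    rw [hcon.1, hcon.2] at hd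
    simp at hd
  have hng : F (-p) (-r) = F p r := by
    have := hom (-1) p r (by norm_num) hne
    rwa [neg_one_mul, neg_one_mul] at this
  have hnq : F (-q) (-s) = F q s := by
    have := hom (-1) q s (by norm_num) hne'
    rwa [neg_one_mul, neg_one_mul] at this
  have hnq' : F (-q) s = F q (-s) := by
    have := hom (-1) q (-s) (by norm_num) (by
      rcases hne' with h | h
      · exact Or.inl h
      · exact Or.inr (neg_ne_zero.2 h))
    rw [neg_one_mul, neg_one_mul, neg_neg] at this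
    exact this
  by_cases hr : (5 : ℤ) ∣ r
  · exact h0 p q r s hd hr
  by_cases hs : (5 : ℤ) ∣ s
  · have := h0 q (-p) s (-r) (by linear_combination hd) hs
    rw [this, hng]
  have hq : r % 5 = 1 ∨ r % 5 = 2 ∨ r % 5 = 3 ∨ r % 5 = 4 := by omega
  have hq' : s % 5 = 1 ∨ s % 5 = 2 ∨ s % 5 = 3 ∨ s % 5 = 4 := by omega
  have hc : (5 : ℤ) ∣ r - s ∨ (5 : ℤ) ∣ r + s ∨ (5 : ℤ) ∣ r - 2 * s ∨ (5 : ℤ) ∣ r + 2 * s := by
    rcases hq with h1 | h1 | h1 | h1 <;> rcases hq' with h3 | h3 | h3 | h3 <;> omega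
  rcases hc with h1 | h1 | h1 | h1
  · have e1 := h0 (p - q) q (r - s) s (by linear_combination hd) h1
    have e2 := h0 (p - q) p (r - s) r (by linear_combination hd) h1
    rw [← e2, e1]
  · have e1 := h0 (p + q) q (r + s) s (by linear_combination hd) h1
    have e2 := h0 (p + q) (-p) (r + s) (-r) (by linear_combination hd) h1
    rw [← hng, ← e2, e1]
  · exact h2 p q r s hd h1
  · have e1 := h2 (-p) q r (-s) (by linear_combination hd) (by omega)
    rw [st p r hne, ← hnq', st q s hne'] at e1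
    exact e1

end Pool.Agent.Helper83.T5C
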